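import Mathlib
import Pool.Agent.H45.Lib.S8.H373R2.T7.Minor
import Pool.Agent.H45.Lib.S8.H442R2.EHI.PntErr
import Pool.Agent.H45.Lib.S8.H343R2.EH.Psi
import Pool.Agent.H45.Lib.S8.H343R2.EH.Primes

/-! The von Mangoldt function in progressions to small moduli. -/

namespace Pool.Agent.H373R2.T7
open Finset

/-- sums over progressions -/
noncomputable def lamAP (y q c : ℕ) : ℝ := ∑ n ∈ (Icc 1 y).filter (fun n => n ≡ c [MOD q]), ArithmeticFunction.vonMangoldt n

noncomputable def lam1 (y : ℕ) : ℝ := ∑ n ∈ Icc 1 y, ArithmeticFunction.vonMangoldt n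

lemma lam1_eq (y : ℕ) : lam1 y = Chebyshev.psi (y : ℝ) := by
  unfold lam1 Chebyshev.psi
  rw [Nat.floor_natCast]
  congr 1

lemma lam1_le (y : ℕ) : lam1 y ≤ 6 * y := by
  rw [lam1_eq]
  refine (Chebyshev.psi_le_const_mul_self (Nat.cast_nonneg _)).trans ?_
  apply mul_le_mul_of_nonneg_right _ (Nat.cast_nonneg _)
  have h : Real.log 4 = 2 * Real.log 2 := by
    rw [show (4 : ℝ) = 2 ^ 2 by norm_num, Real.log_pow]; norm_num
  rw [h]
  have := Real.log_two_lt_d9
  linarith

lemma lamAP_nonneg (y q c : ℕ) : 0 ≤ lamAP y q c := sum_nonneg fun _ _ => ArithmeticFunction.vonMangoldt_nonneg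

lemma lamAP_le (y q c : ℕ) : lamAP y q c ≤ 6 * y := by
  refine le_trans ?_ (lam1_le y)
  exact sum_le_sum_of_subset_of_nonneg (filter_subset _ _) (fun _ _ _ => ArithmeticFunction.vonMangoldt_nonneg)

/-- the prime number theorem -/
lemma pnt_lam (U : ℕ) : ∃ (C : ℝ) (N1 : ℕ), 0 < C ∧ ∀ y : ℕ, N1 ≤ y → |lam1 y - y| ≤ C * (y / Real.log y ^ U) + 2 := by
  obtain ⟨C, hC, N1, h⟩ := Pool.Agent.H442R2.EHI.PntErrAux.largeU U
  refine ⟨C, N1, hC, fun y hy => ?_⟩
  rw [lam1_eq]
  exact h y hy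

/-- Siegel-Walfisz -/
lemma sw_lam (U K : ℕ) : ∃ y0 : ℕ, ∀ y : ℕ, y0 ≤ y → ∀ q : ℕ, 1 ≤ q → (q : ℝ) ≤ Real.log y ^ K →
    ∀ c : ℕ, c.Coprime q → |lamAP y q c - lam1 y / (Nat.totient q : ℝ)| ≤ y / Real.log y ^ U := by
  obtain ⟨B, X0, h0⟩ := H343E.unsmoothed U
  obtain ⟨x1, h1⟩ := ev_log' (2 * K + B) 1
  obtain ⟨x2, h2⟩ := ev_L' 1
  refine ⟨max (max ⌈X0⌉₊ x1) (max x2 1), fun y hy q hq hqy c hcop => ?_⟩
  have hy0 : X0 ≤ y := (Nat.le_ceil _).trans (by exact_mod_cast le_trans (le_trans (le_max_left _ _) (le_max_left _ _)) hy)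
  have hy1 : x1 ≤ y := le_trans (le_trans (le_max_right _ _) (le_max_left _ _)) hy
  have hy2 : x2 ≤ y := le_trans (le_trans (le_max_left _ _) (le_max_right _ _)) hy
  have hy3 : 1 ≤ y := le_trans (le_trans (le_max_right _ _) (le_max_right _ _)) hy
  have hyR : (1 : ℝ) ≤ y := by exact_mod_cast hy3
  have hL := h2 y hy2
  have hL0 : 0 < Real.log y := by linarith
  have hA := h1 y hy1
  rw [one_mul, pow_add, pow_mul'] at hA
  have hsq : √(y : ℝ) ≤ y := by
    rw [Real.sqrt_le_left (by positivity)]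
    nlinarith
  have hq1 : (1 : ℝ) ≤ q := by exact_mod_cast hq
  have hD2 : (q : ℝ) ^ 2 ≤ 1 * y / Real.log y ^ B := by
    rw [le_div_iff₀ (by positivity), one_mul]
    refine le_trans ?_ (hA.trans hsq)
    gcongr
  have hD1 : (q : ℝ) ≤ y / Real.log y ^ B := by
    rw [one_mul] at hD2
    refine le_trans ?_ hD2
    nlinarith
  have hcc : (c % q).Coprime q := by
    unfold Nat.Coprime
    rw [(Nat.mod_modEq c q).gcd_eq]
    exact hcop
  have h4 := h0 y hy0 1 le_rfl q hD1 hD2 (fun q' => if q' = q then {c % q} else ∅)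
    ⟨fun q' a ha => by
      split_ifs at ha with hh
      · rw [mem_singleton] at ha
        rw [ha, hh]
        exact ⟨Nat.mod_lt _ (by omega), hcc⟩
      · simp at ha, fun q' => by
      split_ifs <;> simp⟩
  rw [one_mul] at h4
  refine le_trans ?_ h4
  have h5 := single_le_sum (f := fun q' => ∑ a ∈ (if q' = q then ({c % q} : Finset ℕ) else ∅),
    |H343E.psiAP y q' a - H343E.psi1 y / (Nat.totient q' : ℝ)|)
    (s := Icc 1 q) (fun i _ => sum_nonneg (fun _ _ => abs_nonneg _)) (mem_Icc.2 ⟨hq, le_rfl⟩)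
  refine le_trans (le_of_eq ?_) h5
  simp only [if_true, sum_singleton]
  have e1 : lamAP y q c = H343E.psiAP y q (c % q) := by
    unfold lamAP H343E.psiAP
    rw [Nat.floor_natCast]
    apply sum_congr _ (fun _ _ => rfl)
    apply filter_congr
    intro n _
    unfold Nat.ModEq
    rw [Nat.mod_mod]
  have e2 : lam1 y = H343E.psi1 y := by
    unfold lam1 H343E.psi1
    rw [Nat.floor_natCast]
  rw [e1, e2]

/-- prime powers divisible by a fixed prime -/
lemma lam_mult_prime (y p : ℕ) (hp : p.Prime) :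
    ∑ n ∈ (Icc 1 y).filter (fun n => p ∣ n), ArithmeticFunction.vonMangoldt n ≤ (Nat.log 2 y + 1 : ℝ) * Real.log y := by
  rcases Nat.eq_zero_or_pos y with h | hy
  · rw [h]; simp
  have hsupp : ∑ n ∈ (Icc 1 y).filter (fun n => p ∣ n), ArithmeticFunction.vonMangoldt n =
      ∑ n ∈ (Icc 1 y).filter (fun n => p ∣ n ∧ IsPrimePow n), ArithmeticFunction.vonMangoldt n := by
    rw [sum_filter, sum_filter]
    apply sum_congr rfl
    intro n _
    by_cases h1 : p ∣ n
    · by_cases h2 : IsPrimePow n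
      · rw [if_pos h1, if_pos ⟨h1, h2⟩]
      · rw [if_pos h1, if_neg (fun h => h2 h.2), ArithmeticFunction.vonMangoldt_apply, if_neg h2]
    · rw [if_neg h1, if_neg (fun h => h1 h.1)]
  rw [hsupp]
  have hcard : ((Icc 1 y).filter (fun n => p ∣ n ∧ IsPrimePow n)).card ≤ Nat.log 2 y + 1 := by
    have : ((Icc 1 y).filter (fun n => p ∣ n ∧ IsPrimePow n)) ⊆ (range (Nat.log 2 y + 1)).image (fun k => p ^ k) := by
      intro n hn
      rw [mem_filter, mem_Icc] at hn
      obtain ⟨⟨h1, h2⟩, h3, h4⟩ := hn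
      rw [isPrimePow_nat_iff] at h4
      obtain ⟨p', k, hp', hk, rfl⟩ := h4
      have h5 : p = p' := (Nat.prime_dvd_prime_iff_eq hp hp').1 (hp.dvd_of_dvd_pow h3)
      rw [mem_image]
      refine ⟨k, ?_, by rw [h5]⟩
      rw [mem_range, Nat.lt_succ_iff]
      apply Nat.le_log_of_pow_le (by norm_num)
      exact (Nat.pow_le_pow_left hp'.two_le k).trans h2
    exact (card_le_card this).trans (card_image_le.trans (by rw [card_range]))
  calc ∑ n ∈ (Icc 1 y).filter (fun n => p ∣ n ∧ IsPrimePow n), ArithmeticFunction.vonMangoldt n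
      ≤ ∑ _n ∈ (Icc 1 y).filter (fun n => p ∣ n ∧ IsPrimePow n), Real.log y := by
        apply sum_le_sum
        intro n hn
        rw [mem_filter, mem_Icc] at hn
        refine ArithmeticFunction.vonMangoldt_le_log.trans ?_
        apply Real.log_le_log (by exact_mod_cast hn.1.1)
        exact_mod_cast hn.1.2
    _ = (((Icc 1 y).filter (fun n => p ∣ n ∧ IsPrimePow n)).card : ℝ) * Real.log y := by rw [sum_const, nsmul_eq_mul]
    _ ≤ _ := by
        apply mul_le_mul_of_nonneg_right _ (Real.log_natCast_nonneg _)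
        exact_mod_cast hcard

lemma lamAP_noncop (y q c : ℕ) (h : ¬ c.Coprime q) : lamAP y q c ≤ (Nat.log 2 y + 1 : ℝ) * Real.log y := by
  obtain ⟨p, hp, hpc, hpq⟩ := Nat.Prime.not_coprime_iff_dvd.1 h
  refine le_trans ?_ (lam_mult_prime y p hp)
  unfold lamAP
  apply sum_le_sum_of_subset_of_nonneg
  · intro n hn
    rw [mem_filter] at hn ⊢
    exact ⟨hn.1, (hn.2.dvd_iff hpq).2 hpc⟩
  · intro _ _ _
    exact ArithmeticFunction.vonMangoldt_nonneg

lemma natlog_le (y : ℕ) (hy : 1 ≤ y) : (Nat.log 2 y : ℝ) ≤ 2 * Real.log y := by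
  have h4 : (2 : ℝ) ^ Nat.log 2 y ≤ y := by exact_mod_cast Nat.pow_log_le_self 2 (by omega : y ≠ 0)
  have h6 := Real.log_le_log (by positivity) h4
  rw [Real.log_pow] at h6
  have := Real.log_two_gt_d9
  have h7 : (0 : ℝ) ≤ Nat.log 2 y := Nat.cast_nonneg _
  nlinarith

theorem lam_ap (K U : ℕ) : ∃ N0 : ℕ, ∀ N : ℕ, N0 ≤ N → ∀ q : ℕ, 1 ≤ q → (q : ℝ) ≤ Real.log N ^ K →
    ∀ c y : ℕ, y ≤ N →
    |∑ n ∈ (Icc 1 y).filter (fun n => n ≡ c [MOD q]), ArithmeticFunction.vonMangoldt n -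
      (if c.Coprime q then (y : ℝ) / (Nat.totient q : ℝ) else 0)| ≤ N / Real.log N ^ U := by
  obtain ⟨C, N1, hC, hpnt⟩ := pnt_lam (U + 1)
  obtain ⟨y0, hsw⟩ := sw_lam (U + 1) (K + 1)
  obtain ⟨n1, h1⟩ := ev_log' (2 * (U + 3)) 1
  obtain ⟨n2, h2⟩ := ev_L' (2 * 2 ^ (U + 1) * (C + 3) + 2 * 2 ^ K + 8)
  refine ⟨max (max (y0 ^ 2) (N1 ^ 2)) (max n1 (max n2 4)), fun N hN q hq hqN c y hy => ?_⟩
  have hNy0 : y0 ^ 2 ≤ N := le_trans (le_trans (le_max_left _ _) (le_max_left _ _)) hN
  have hNN1 : N1 ^ 2 ≤ N := le_trans (le_trans (le_max_right _ _) (le_max_left _ _)) hN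
  have a1 := h1 N (le_trans (le_trans (le_max_left _ _) (le_max_right _ _)) hN)
  have hL := h2 N (le_trans (le_trans (le_trans (le_max_left _ _) (le_max_right _ _)) (le_max_right _ _)) hN)
  have hN4 : 4 ≤ N := le_trans (le_trans (le_trans (le_max_right _ _) (le_max_right _ _)) (le_max_right _ _)) hN
  have hNr : (4 : ℝ) ≤ N := by exact_mod_cast hN4
  have hN0 : (0 : ℝ) < N := by linarith
  set L := Real.log N with hLd
  have hp1 : (0 : ℝ) < 2 ^ (U + 1) := by positivity
  have hp2 : (0 : ℝ) < 2 ^ K := by positivity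
  have hCC : 0 < 2 * 2 ^ (U + 1) * (C + 3) := by positivity
  have hL8 : 8 ≤ L := by linarith
  have hL0 : 0 < L := by linarith
  have hφ : (1 : ℝ) ≤ (Nat.totient q : ℝ) := by exact_mod_cast Nat.totient_pos.2 hq
  have hyr : (y : ℝ) ≤ N := by exact_mod_cast hy
  have hAP : ∑ n ∈ (Icc 1 y).filter (fun n => n ≡ c [MOD q]), ArithmeticFunction.vonMangoldt n = lamAP y q c := rfl
  rw [hAP]
  have hLL : L ^ (2 * (U + 3)) ≤ √N := by rw [one_mul] at a1; exact a1
  have hsmall : L ^ (U + 3) ≤ √(N : ℝ) := by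
    refine le_trans ?_ hLL
    exact pow_le_pow_right₀ (by linarith) (by omega)
  have hss : √(N : ℝ) * √(N : ℝ) = N := Real.mul_self_sqrt hN0.le
  have hs0 : 0 < √(N : ℝ) := Real.sqrt_pos.2 hN0
  rcases le_or_gt (y : ℝ) (N / L ^ (U + 1)) with hys | hyl
  · have h3 := lamAP_le y q c
    have h4 := lamAP_nonneg y q c
    have h5 : 0 ≤ (y : ℝ) := Nat.cast_nonneg _
    have h6 : |lamAP y q c - (if c.Coprime q then (y : ℝ) / (Nat.totient q : ℝ) else 0)| ≤ 6 * y := by
      have h7 : (y : ℝ) / (Nat.totient q : ℝ) ≤ y := div_le_self h5 hφ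
      have h8 : 0 ≤ (y : ℝ) / (Nat.totient q : ℝ) := by positivity
      rw [abs_le]
      split_ifs
      · constructor <;> linarith
      · constructor <;> linarith
    refine h6.trans ?_
    calc 6 * (y : ℝ) ≤ 6 * (N / L ^ (U + 1)) := by linarith
      _ = 6 / L * (N / L ^ U) := by rw [pow_succ]; field_simp
      _ ≤ 1 * (N / L ^ U) := by
          apply mul_le_mul_of_nonneg_right _ (by positivity)
          rw [div_le_one hL0]; linarith
      _ = _ := one_mul _
  · have hysq : √(N : ℝ) ≤ y := by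
      refine le_trans ?_ hyl.le
      rw [le_div_iff₀ (by positivity)]
      calc √(N : ℝ) * L ^ (U + 1) ≤ √(N : ℝ) * L ^ (U + 3) := by
            apply mul_le_mul_of_nonneg_left _ hs0.le
            exact pow_le_pow_right₀ (by linarith) (by omega)
        _ ≤ √(N : ℝ) * √(N : ℝ) := by gcongr
        _ = N := hss
    have hyy0 : y0 ≤ y := by
      have h3 : (y0 : ℝ) ≤ √(N : ℝ) := Real.le_sqrt_of_sq_le (by exact_mod_cast hNy0)
      exact_mod_cast h3.trans hysq
    have hyN1 : N1 ≤ y := by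
      have h3 : (N1 : ℝ) ≤ √(N : ℝ) := Real.le_sqrt_of_sq_le (by exact_mod_cast hNN1)
      exact_mod_cast h3.trans hysq
    have hy1 : (1 : ℝ) ≤ y := by
      have h3 : (1 : ℝ) ≤ √(N : ℝ) := Real.le_sqrt_of_sq_le (by linarith)
      exact h3.trans hysq
    have hy1' : 1 ≤ y := by exact_mod_cast hy1
    have hlogy : L / 2 ≤ Real.log y := by
      have h3 := Real.log_le_log hs0 hysq
      rw [Real.log_sqrt hN0.le] at h3
      exact h3
    have hlogy0 : 0 < Real.log y := by linarith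
    have hlogyN : Real.log y ≤ L := Real.log_le_log (by linarith) hyr
    by_cases hc : c.Coprime q
    · rw [if_pos hc]
      have hqlog : (q : ℝ) ≤ Real.log y ^ (K + 1) := by
        calc (q : ℝ) ≤ L ^ K := hqN
          _ = (2 * (L / 2)) ^ K := by ring_nf
          _ ≤ (2 * Real.log y) ^ K := by gcongr
          _ = 2 ^ K * Real.log y ^ K := mul_pow _ _ _
          _ ≤ Real.log y * Real.log y ^ K := by
              apply mul_le_mul_of_nonneg_right _ (by positivity)
              linarith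
          _ = Real.log y ^ (K + 1) := by ring
      have h3 := hsw y hyy0 q hq hqlog c hc
      have h4 := hpnt y hyN1
      have h5 : (y : ℝ) / Real.log y ^ (U + 1) ≤ 2 ^ (U + 1) * (N / L ^ (U + 1)) := by
        calc (y : ℝ) / Real.log y ^ (U + 1) ≤ N / (L / 2) ^ (U + 1) := by
              apply div_le_div₀ hN0.le hyr (by positivity)
              gcongr
          _ = 2 ^ (U + 1) * (N / L ^ (U + 1)) := by
              rw [div_pow]; field_simp
      have h6 : lamAP y q c - (y : ℝ) / (Nat.totient q : ℝ) = (lamAP y q c - lam1 y / (Nat.totient q : ℝ)) +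
          (lam1 y - y) / (Nat.totient q : ℝ) := by ring
      have h7 : |(lam1 y - y) / (Nat.totient q : ℝ)| ≤ |lam1 y - y| := by
        rw [abs_div, abs_of_pos (show (0 : ℝ) < (Nat.totient q : ℝ) by linarith)]
        exact div_le_self (abs_nonneg _) hφ
      have h8 : (1 : ℝ) ≤ N / L ^ (U + 1) := by
        rw [one_le_div (by positivity)]
        have h9 : L ^ (U + 1) ≤ L ^ (U + 3) := pow_le_pow_right₀ (by linarith) (by omega)
        have h10 : √(N : ℝ) ≤ N := by
          rw [Real.sqrt_le_left (by positivity)]; nlinarith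
        linarith
      have h81 : (1 : ℝ) ≤ 2 ^ (U + 1) := one_le_pow₀ (by norm_num)
      rw [h6]
      refine (abs_add_le _ _).trans ?_
      have h9 : |lamAP y q c - lam1 y / (Nat.totient q : ℝ)| + |(lam1 y - y) / (Nat.totient q : ℝ)| ≤
          2 ^ (U + 1) * (C + 3) * (N / L ^ (U + 1)) := by
        have h10 : C * ((y : ℝ) / Real.log y ^ (U + 1)) ≤ C * (2 ^ (U + 1) * (N / L ^ (U + 1))) :=
          mul_le_mul_of_nonneg_left h5 hC.le
        have h11 : (2 : ℝ) ≤ 2 * (2 ^ (U + 1) * (N / L ^ (U + 1))) := by nlinarith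
        linarith
      refine h9.trans ?_
      calc 2 ^ (U + 1) * (C + 3) * (N / L ^ (U + 1)) = (2 ^ (U + 1) * (C + 3) / L) * (N / L ^ U) := by
            rw [pow_succ L]; field_simp
        _ ≤ 1 * (N / L ^ U) := by
            apply mul_le_mul_of_nonneg_right _ (by positivity)
            rw [div_le_one hL0]; linarith
        _ = _ := one_mul _
    · rw [if_neg hc, sub_zero, abs_of_nonneg (lamAP_nonneg y q c)]
      refine (lamAP_noncop y q c hc).trans ?_
      have h3 := natlog_le y hy1'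
      calc ((Nat.log 2 y : ℝ) + 1) * Real.log y ≤ (2 * L + L) * L := by
            apply mul_le_mul _ hlogyN hlogy0.le (by positivity)
            linarith
        _ = 3 * L ^ 2 := by ring
        _ ≤ L ^ 3 := by nlinarith [sq_nonneg L]
        _ ≤ N / L ^ U := by
            rw [le_div_iff₀ (by positivity), ← pow_add]
            have h4 : L ^ (3 + U) ≤ √(N : ℝ) := by rw [add_comm]; exact hsmall
            have h10 : √(N : ℝ) ≤ N := by
              rw [Real.sqrt_le_left (by positivity)]; nlinarith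
            linarith

end Pool.Agent.H373R2.T7
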