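import Mathlib
import Pool.Agent.H45.Lib.S8.H373R2.T7.LamZ
import Pool.Agent.H45.Lib.S8.Helper256.KM.Mertens

/-! The sieve model: size and minor arcs. -/

namespace Pool.Agent.H373R2.T7
open Finset
open Pool.Agent.H807R2.Dav

theorem Vz_inv_small (E : ℕ) : ∃ N0 : ℕ, ∀ N : ℕ, N0 ≤ N → ∀ z : ℕ, 1 ≤ z → (z : ℝ) ≤ Real.log N ^ E →
    (Vz z)⁻¹ ≤ Real.log N := by
  obtain ⟨C, hC⟩ := Pool.Agent.Helper256.KM.mertens_inv
  have hlim : Filter.Tendsto (fun N : ℕ => Real.log (N : ℝ)) Filter.atTop Filter.atTop :=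
    Real.tendsto_log_atTop.comp (tendsto_natCast_atTop_atTop (R := ℝ))
  have h2 : ∀ᶠ N : ℕ in Filter.atTop, (Real.exp (2 * C) * (E : ℝ) ^ 2) * Real.log (Real.log N) ^ 2 ≤ Real.log N := by
    have h3 := (Real.isLittleO_pow_log_id_atTop (n := 2)).bound (show (0 : ℝ) < 1 / (Real.exp (2 * C) * (E : ℝ) ^ 2 + 1) by positivity)
    have h4 := hlim.eventually h3
    filter_upwards [h4, hlim.eventually_ge_atTop 1] with N h5 h6
    simp only [id] at h5
    rw [Real.norm_of_nonneg (by positivity), Real.norm_of_nonneg (by linarith), one_div, inv_mul_eq_div,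
      le_div_iff₀ (by positivity)] at h5
    have h7 : 0 ≤ Real.log (Real.log N) ^ 2 := by positivity
    nlinarith
  obtain ⟨N0, h0⟩ := Filter.eventually_atTop.1 (h2.and (hlim.eventually_ge_atTop 3))
  refine ⟨N0, fun N hN z hz hzE => ?_⟩
  obtain ⟨hb, hL⟩ := h0 N hN
  rcases lt_or_ge z 3 with h3 | h3
  · refine (Vz_inv_le z hz).trans ?_
    have : (z : ℝ) ≤ 3 := by exact_mod_cast h3.le
    linarith
  have h4 := hC z h3
  have h5 : (Vz z)⁻¹ ≤ Real.exp (2 * ∑ p ∈ pz z, 1 / (p : ℝ)) := by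
    unfold Vz
    rw [← prod_inv_distrib, mul_sum, Real.exp_sum]
    apply prod_le_prod
    · intro p hp
      have hp2 : (2 : ℝ) ≤ p := by exact_mod_cast (mem_pz.1 hp).2.two_le
      apply inv_nonneg.2
      rw [sub_nonneg, div_le_one (by linarith)]; linarith
    · intro p hp
      have hp2 : (2 : ℝ) ≤ p := by exact_mod_cast (mem_pz.1 hp).2.two_le
      have h6 : (1 - 1 / (p : ℝ))⁻¹ ≤ 2 * (1 / p) + 1 := by
        rw [inv_le_iff_one_le_mul₀ (by rw [sub_pos, div_lt_one (by linarith)]; linarith)]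
        have h7 : 0 < 1 / (p : ℝ) := by positivity
        have h8 : 1 / (p : ℝ) ≤ 1 / 2 := one_div_le_one_div_of_le (by norm_num) hp2
        nlinarith
      exact h6.trans (Real.add_one_le_exp _)
  have hz3 : (3 : ℝ) ≤ z := by exact_mod_cast h3
  have hlz : 1 ≤ Real.log z := by
    rw [← Real.log_exp 1]
    apply Real.log_le_log (Real.exp_pos _)
    have := Real.exp_one_lt_d9
    linarith
  have h6 : ∑ p ∈ pz z, 1 / (p : ℝ) ≤ Real.log (Real.log z) + C := by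
    have := (abs_le.1 h4).2
    unfold pz
    linarith
  have h7 : Real.log z ≤ E * Real.log (Real.log N) := by
    have h8 := Real.log_le_log (by linarith) hzE
    rw [Real.log_pow] at h8
    exact h8
  calc (Vz z)⁻¹ ≤ Real.exp (2 * ∑ p ∈ pz z, 1 / (p : ℝ)) := h5
    _ ≤ Real.exp (2 * (Real.log (Real.log z) + C)) := Real.exp_le_exp.2 (by linarith)
    _ = Real.exp (2 * C) * Real.log z ^ 2 := by
        rw [mul_add, Real.exp_add, mul_comm 2 (Real.log (Real.log z)), Real.exp_mul, Real.exp_log (by linarith)]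
        norm_num
        ring
    _ ≤ Real.exp (2 * C) * (E * Real.log (Real.log N)) ^ 2 := by gcongr
    _ = (Real.exp (2 * C) * (E : ℝ) ^ 2) * Real.log (Real.log N) ^ 2 := by ring
    _ ≤ _ := hb

lemma sum_small_le (z r : ℕ) (F : ℕ → ℝ) (hF : ∀ d, 0 ≤ F d) :
    ∑ j ∈ range (r + 1), ∑ S ∈ (pz z).powersetCard j, F (∏ p ∈ S, p) ≤ ∑ d ∈ Icc 1 ((z + 1) ^ r), F d := by
  rw [sum_sigma']
  set I := (range (r + 1)).sigma (fun j => (pz z).powersetCard j) with hI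
  have hmem : ∀ x ∈ I, x.1 ≤ r ∧ x.2 ⊆ pz z ∧ x.2.card = x.1 := by
    intro x hx
    rw [hI, mem_sigma, mem_range, mem_powersetCard] at hx
    exact ⟨by omega, hx.2.1, hx.2.2⟩
  have hprime : ∀ x ∈ I, ∀ p ∈ x.2, p.Prime := fun x hx p hp => (mem_pz.1 ((hmem x hx).2.1 hp)).2
  have h1 : ∑ x ∈ I, F (∏ p ∈ x.2, p) = ∑ d ∈ I.image (fun x => ∏ p ∈ x.2, p), F d := by
    rw [sum_image]
    intro x hx y hy h
    have h2 : x.2 = y.2 := prod_inj _ _ (hprime x hx) (hprime y hy) h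
    have h3 : x.1 = y.1 := by rw [← (hmem x hx).2.2, ← (hmem y hy).2.2, h2]
    exact Sigma.ext h3 (heq_of_eq h2)
  rw [h1]
  apply sum_le_sum_of_subset_of_nonneg
  · intro d hd
    rw [mem_image] at hd
    obtain ⟨x, hx, rfl⟩ := hd
    rw [mem_Icc]
    refine ⟨Nat.pos_of_ne_zero (prod_ne_zero_iff.2 fun p hp => (hprime x hx p hp).ne_zero), ?_⟩
    exact prod_le_pow _ z r (hmem x hx).2.1 ((hmem x hx).2.2.trans_le (hmem x hx).1)
  · intro d _ _
    exact hF d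

/-- multiples of `d` -/
lemma sum_mult (N d : ℕ) (hd : 1 ≤ d) (G : ℕ → ℂ) :
    ∑ n ∈ (Icc 1 N).filter (fun n => d ∣ n), G n = ∑ m ∈ Icc 1 (N / d), G (d * m) := by
  symm
  apply sum_bij (fun m _ => d * m)
  · intro m hm
    rw [mem_Icc] at hm
    rw [mem_filter, mem_Icc]
    refine ⟨⟨Nat.mul_pos hd hm.1, ?_⟩, dvd_mul_right _ _⟩
    calc d * m ≤ d * (N / d) := Nat.mul_le_mul_left _ hm.2
      _ ≤ N := Nat.mul_div_le _ _
  · intro a _ b _ h
    exact Nat.eq_of_mul_eq_mul_left hd h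
  · intro n hn
    rw [mem_filter, mem_Icc] at hn
    obtain ⟨m, rfl⟩ := hn.2
    refine ⟨m, ?_, rfl⟩
    rw [mem_Icc]
    constructor
    · rcases Nat.eq_zero_or_pos m with h | h
      · rw [h] at hn; omega
      · exact h
    · rw [Nat.le_div_iff_mul_le hd]
      linarith [mul_comm d m]
  · intro m _; rfl

theorem lamz_minor (E U : ℕ) : ∃ N0 : ℕ, ∀ N : ℕ, N0 ≤ N → ∀ z : ℕ, 1 ≤ z → (z : ℝ) ≤ Real.log N ^ E →
    ∀ q : ℕ, Real.log N ^ (U + 5) ≤ q → (q : ℝ) ≤ N / Real.log N ^ (U + 5) →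
    ∀ c : ℤ, IsCoprime c (q : ℤ) → ∀ α : ℝ, |α - c / q| ≤ 1 / (q : ℝ) ^ 2 →
    ‖∑ n ∈ Icc 1 N, ((lamz z n : ℝ) : ℂ) * ee ((n : ℝ) * α)‖ ≤ N / Real.log N ^ U := by
  obtain ⟨N0, h0⟩ := choice 1 E (U + 2) 2
  obtain ⟨n1, h1⟩ := ev_log' (U + 5) 1
  obtain ⟨n2, h2⟩ := ev_L' 10000
  obtain ⟨n3, h3⟩ := Vz_inv_small E
  refine ⟨max (max N0 n1) (max n2 (max n3 1)), fun N hN z hz hzE q hq1 hq2 c hcop α hα => ?_⟩
  have a0 := h0 N (le_trans (le_trans (le_max_left _ _) (le_max_left _ _)) hN) z hzE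
  have a1 := h1 N (le_trans (le_trans (le_max_right _ _) (le_max_left _ _)) hN)
  have hL := h2 N (le_trans (le_trans (le_max_left _ _) (le_max_right _ _)) hN)
  have hV := h3 N (le_trans (le_trans (le_trans (le_max_left _ _) (le_max_right _ _)) (le_max_right _ _)) hN) z hz hzE
  have hN1 : 1 ≤ N := le_trans (le_trans (le_trans (le_max_right _ _) (le_max_right _ _)) (le_max_right _ _)) hN
  have hNr : (1 : ℝ) ≤ N := by exact_mod_cast hN1
  have hN0 : (0 : ℝ) < N := by linarith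
  set L := Real.log N with hLd
  have hL0 : 0 < L := by linarith
  have hLB : 1 ≤ L ^ (U + 5) := one_le_pow₀ (by linarith)
  have hq0 : (0 : ℝ) < q := by linarith
  have hqn : 1 ≤ q := by exact_mod_cast hq0
  have hqr : (1 : ℝ) ≤ q := by exact_mod_cast hqn
  have hqN : (q : ℝ) ≤ N := hq2.trans (div_le_self hN0.le hLB)
  have hlq : Real.log q ≤ L := Real.log_le_log hq0 hqN
  have hlq0 : 0 ≤ Real.log q := Real.log_nonneg hqr
  obtain ⟨r, hr1, hr2, _⟩ := a0
  set D := (z + 1) ^ r with hD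
  have hD1 : 1 ≤ D := Nat.one_le_pow _ _ (by omega)
  have hDs : (D : ℝ) ≤ √N := by
    rw [← Real.sqrt_sq (by positivity : (0 : ℝ) ≤ (D : ℝ))]
    apply Real.sqrt_le_sqrt
    rw [hD]
    push_cast
    exact hr2
  have hV0 : 0 < (Vz z)⁻¹ := inv_pos.2 (Vz_pos z)
  set ind : ℕ → ℝ := fun n => if ∀ p ∈ pz z, ¬ p ∣ n then (1 : ℝ) else 0 with hind
  set χ : Finset ℕ → ℕ → ℝ := fun S n => if ∀ p ∈ S, p ∣ n then (1 : ℝ) else 0 with hχ
  have hpt : ∀ n : ℕ, |ind n - ∑ j ∈ range r, (-1 : ℝ) ^ j * ∑ S ∈ (pz z).powersetCard j, χ S n| ≤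
      ∑ S ∈ (pz z).powersetCard r, χ S n := by
    intro n
    have := bonf_ind (fun p n => p ∣ n) (pz z) r n
    rw [hind, hχ]
    convert this
  have hS : ∑ n ∈ Icc 1 N, ((lamz z n : ℝ) : ℂ) * ee ((n : ℝ) * α) =
      (((Vz z)⁻¹ : ℝ) : ℂ) * ∑ n ∈ Icc 1 N, ((ind n : ℝ) : ℂ) * ee ((n : ℝ) * α) := by
    rw [mul_sum]
    apply sum_congr rfl
    intro n _
    rw [hind]
    unfold lamz
    by_cases h : ∀ p ∈ pz z, ¬ p ∣ n
    · simp only [if_pos h]
      push_cast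
      ring
    · simp only [if_neg h]
      push_cast
      ring
  have hprime : ∀ j, ∀ S ∈ (pz z).powersetCard j, ∀ p ∈ S, p.Prime := fun j S hS p hp =>
    (mem_pz.1 ((mem_powersetCard.1 hS).1 hp)).2
  have hpos : ∀ j, ∀ S ∈ (pz z).powersetCard j, 1 ≤ ∏ p ∈ S, p := fun j S hS =>
    Nat.pos_of_ne_zero (prod_ne_zero_iff.2 fun p hp => (hprime j S hS p hp).ne_zero)
  -- the error
  have herr : ∑ n ∈ Icc 1 N, ∑ S ∈ (pz z).powersetCard r, χ S n ≤ N * (1 / L ^ (U + 2)) := by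
    rw [sum_comm]
    have h4 : ∀ S ∈ (pz z).powersetCard r, ∑ n ∈ Icc 1 N, χ S n ≤ N * ∏ p ∈ S, (1 / (p : ℝ)) := by
      intro S hS
      have h5 : ∑ n ∈ Icc 1 N, χ S n = (((Icc 1 N).filter (fun n => ∏ p ∈ S, p ∣ n)).card : ℝ) := by
        rw [card_eq_sum_ones]
        push_cast
        rw [sum_filter]
        apply sum_congr rfl
        intro n _
        rw [hχ]
        simp only [prod_dvd_iff S (hprime r S hS)]
      rw [h5]
      have h6 : ((Icc 1 N).filter (fun n => ∏ p ∈ S, p ∣ n)).card = N / ∏ p ∈ S, p := by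
        rw [← Nat.Ioc_filter_dvd_card_eq_div N (∏ p ∈ S, p)]
        congr 1
      rw [h6, prod_div_distrib, prod_const_one, mul_one_div]
      refine Nat.cast_div_le.trans ?_
      push_cast
      exact le_rfl
    refine (sum_le_sum h4).trans ?_
    rw [← mul_sum]
    apply mul_le_mul_of_nonneg_left _ hN0.le
    have h5 := es_le (x := fun p => 1 / (p : ℝ)) (T := pz z) (fun p _ => by positivity) r
    unfold es at h5
    refine h5.trans ?_
    refine le_trans ?_ hr1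
    apply Real.exp_le_exp.2
    have := sum_pz_le z
    push_cast
    linarith
  -- the main part
  have hmain : ‖∑ n ∈ Icc 1 N, (((∑ j ∈ range r, (-1 : ℝ) ^ j * ∑ S ∈ (pz z).powersetCard j, χ S n : ℝ)) : ℂ) *
      ee ((n : ℝ) * α)‖ ≤ ∑ d ∈ Icc 1 D, KK (2 * N / d) (d * α) := by
    have h4 : ∑ n ∈ Icc 1 N, (((∑ j ∈ range r, (-1 : ℝ) ^ j * ∑ S ∈ (pz z).powersetCard j, χ S n : ℝ)) : ℂ) *
        ee ((n : ℝ) * α) = ∑ j ∈ range r, (-1 : ℂ) ^ j * ∑ S ∈ (pz z).powersetCard j,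
          ∑ n ∈ Icc 1 N, ((χ S n : ℝ) : ℂ) * ee ((n : ℝ) * α) := by
      push_cast
      simp only [sum_mul, mul_sum]
      rw [sum_comm]
      apply sum_congr rfl
      intro j _
      rw [sum_comm]
      apply sum_congr rfl
      intro S _
      apply sum_congr rfl
      intro n _
      ring
    rw [h4]
    refine (norm_sum_le _ _).trans ?_
    have h5 : ∀ j ∈ range r, ‖(-1 : ℂ) ^ j * ∑ S ∈ (pz z).powersetCard j,
          ∑ n ∈ Icc 1 N, ((χ S n : ℝ) : ℂ) * ee ((n : ℝ) * α)‖ ≤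
        ∑ S ∈ (pz z).powersetCard j, KK (2 * N / ((∏ p ∈ S, p : ℕ) : ℝ)) (((∏ p ∈ S, p : ℕ) : ℝ) * α) := by
      intro j _
      rw [norm_mul, norm_pow, norm_neg, norm_one, one_pow, one_mul]
      refine (norm_sum_le _ _).trans (sum_le_sum fun S hS => ?_)
      set d := ∏ p ∈ S, p with hd
      have hd1 : 1 ≤ d := hpos j S hS
      have hd0 : (0 : ℝ) < d := by exact_mod_cast hd1
      have h6 : ∑ n ∈ Icc 1 N, ((χ S n : ℝ) : ℂ) * ee ((n : ℝ) * α) =
          ∑ n ∈ (Icc 1 N).filter (fun n => d ∣ n), ee ((n : ℝ) * α) := by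
        rw [sum_filter]
        apply sum_congr rfl
        intro n _
        rw [hχ]
        simp only [prod_dvd_iff S (hprime j S hS)]
        rw [← hd]
        split_ifs <;> simp
      rw [h6, sum_mult N d hd1]
      have h7 : ∀ m ∈ Icc 1 (N / d), ee (((d * m : ℕ) : ℝ) * α) = ee ((m : ℝ) * (d * α)) := by
        intro m _; congr 1; push_cast; ring
      rw [sum_congr rfl h7]
      have h8 : Icc 1 (N / d) = Ico 1 (N / d + 1) := by ext x; rw [mem_Icc, mem_Ico]; omega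
      rw [h8]
      apply geo_bound _ _ (Nat.le_add_left 1 _)
      push_cast
      have h9 : ((N / d : ℕ) : ℝ) ≤ N / d := Nat.cast_div_le
      have h10 : 0 ≤ (N : ℝ) / d := by positivity
      have h11 : 2 * (N : ℝ) / d = 2 * (N / d) := by ring
      rw [h11]
      linarith
    refine (sum_le_sum h5).trans ?_
    have h6 := sum_small_le z r (fun d => KK (2 * N / (d : ℝ)) ((d : ℝ) * α)) (fun d => KK_nonneg (by positivity) _)
    rw [sum_range_succ] at h6
    have h7 : 0 ≤ ∑ S ∈ (pz z).powersetCard r, KK (2 * N / ((∏ p ∈ S, p : ℕ) : ℝ)) (((∏ p ∈ S, p : ℕ) : ℝ) * α) :=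
      sum_nonneg fun S _ => KK_nonneg (by positivity) _
    linarith
  have htot : ‖∑ n ∈ Icc 1 N, ((ind n : ℝ) : ℂ) * ee ((n : ℝ) * α)‖ ≤
      N * (1 / L ^ (U + 2)) + ∑ d ∈ Icc 1 D, KK (2 * N / d) (d * α) := by
    have h4 : ∑ n ∈ Icc 1 N, ((ind n : ℝ) : ℂ) * ee ((n : ℝ) * α) =
        ∑ n ∈ Icc 1 N, ((ind n - ∑ j ∈ range r, (-1 : ℝ) ^ j * ∑ S ∈ (pz z).powersetCard j, χ S n : ℝ) : ℂ) * ee ((n : ℝ) * α) +
        ∑ n ∈ Icc 1 N, (((∑ j ∈ range r, (-1 : ℝ) ^ j * ∑ S ∈ (pz z).powersetCard j, χ S n : ℝ)) : ℂ) * ee ((n : ℝ) * α) := by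
      rw [← sum_add_distrib]
      apply sum_congr rfl
      intro n _
      push_cast
      ring
    rw [h4]
    refine (norm_add_le _ _).trans (add_le_add ?_ hmain)
    refine le_trans ?_ herr
    refine (norm_sum_le _ _).trans (sum_le_sum fun n _ => ?_)
    rw [norm_mul, norm_ee, mul_one, Complex.norm_real, Real.norm_eq_abs]
    exact hpt n
  have htI := typeI_lin hqn hcop hα N D hN1 hD1
  rw [hS, norm_mul, Complex.norm_real, Real.norm_of_nonneg hV0.le]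
  have hlog2 : (Nat.log 2 D : ℝ) ≤ 2 * L := by
    have h4 : (2 : ℝ) ^ Nat.log 2 D ≤ D := by exact_mod_cast Nat.pow_log_le_self 2 (by omega : D ≠ 0)
    have h5 : (D : ℝ) ≤ N := hDs.trans (by
      rw [Real.sqrt_le_left (by positivity)]
      nlinarith)
    have h6 := Real.log_le_log (by positivity) (h4.trans h5)
    rw [Real.log_pow] at h6
    have := Real.log_two_gt_d9
    have h7 : (0 : ℝ) ≤ Nat.log 2 D := Nat.cast_nonneg _
    rw [← hLd] at h6
    nlinarith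
  have hsN : √(N : ℝ) ≤ N / L ^ (U + 5) := by
    rw [le_div_iff₀ (by positivity)]
    rw [one_mul] at a1
    calc √(N : ℝ) * L ^ (U + 5) ≤ √(N : ℝ) * √(N : ℝ) := by gcongr
      _ = N := Real.mul_self_sqrt hN0.le
  have hNq : (N : ℝ) / q ≤ N / L ^ (U + 5) := div_le_div_of_nonneg_left hN0.le (by positivity) hq1
  have hP : 0 ≤ (N : ℝ) / L ^ (U + 5) := by positivity
  calc (Vz z)⁻¹ * ‖∑ n ∈ Icc 1 N, ((ind n : ℝ) : ℂ) * ee ((n : ℝ) * α)‖
      ≤ L * (N * (1 / L ^ (U + 2)) + 600 * (2 * L + 1) * (3 * (N / L ^ (U + 5))) * (1 + L)) := by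
        apply mul_le_mul hV _ (norm_nonneg _) hL0.le
        refine htot.trans (add_le_add le_rfl (htI.trans ?_))
        gcongr
        linarith [hDs.trans hsN]
    _ = (1 / L + 1800 * (2 * L + 1) * (1 + L) / L ^ 4) * (N / L ^ U) := by
        field_simp
        ring
    _ ≤ 1 * (N / L ^ U) := by
        apply mul_le_mul_of_nonneg_right _ (by positivity)
        have h4 : 1 / L ≤ 1 / 10000 := one_div_le_one_div_of_le (by norm_num) hL
        have h5 : 1800 * (2 * L + 1) * (1 + L) / L ^ 4 ≤ 1 / 2 := by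
          rw [div_le_iff₀ (by positivity)]
          have h6 : (10000 : ℝ) * L ^ 2 ≤ L ^ 3 := by nlinarith [sq_nonneg L]
          have h7 : (10000 : ℝ) * L ^ 3 ≤ L ^ 4 := by nlinarith [pow_pos hL0 3]
          nlinarith [sq_nonneg L]
        linarith
    _ = N / L ^ U := one_mul _

end Pool.Agent.H373R2.T7
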