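import Mathlib
import Pool.Agent.H45.Lib.S8.H373R2.T7.TupleMain2

/-! The main term for general systems of conditions modulo primes, on primes `n`. -/

namespace Pool.Agent.H373R2.T7
open Finset

open Classical in
/-- nonzero classes -/
noncomputable def rhoA (Q : ℕ → ℕ → Prop) (p : ℕ) : ℕ := ((range p).filter (fun r => ¬ p ∣ r ∧ Q p r)).card

/-- periodic conditions with few classes -/
structure PerA (Q : ℕ → ℕ → Prop) (c : ℕ) : Prop where
  per : ∀ p n, Q p n ↔ Q p (n % p)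
  few : ∀ p, p.Prime → rhoA Q p ≤ c

lemma PerA.mod {Q : ℕ → ℕ → Prop} {c : ℕ} (h : PerA Q c) (n d p : ℕ) (hp : p ∣ d) : Q p (n % d) ↔ Q p n := by
  rw [h.per p (n % d), h.per p n, Nat.mod_mod_of_dvd _ hp]

lemma rhoA_le (Q : ℕ → ℕ → Prop) (p : ℕ) : rhoA Q p ≤ p - 1 := by
  classical
  unfold rhoA
  have h : (range p).filter (fun r => ¬ p ∣ r ∧ Q p r) ⊆ Ico 1 p := by
    intro r hr
    rw [mem_filter, mem_range] at hr
    rw [mem_Ico]
    refine ⟨?_, hr.1⟩
    rcases Nat.eq_zero_or_pos r with h | h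
    · exact absurd (h ▸ dvd_zero _) hr.2.1
    · exact h
  refine (card_le_card h).trans ?_
  simp

/-- the family of classes -/
noncomputable def LSA (Q : ℕ → ℕ → Prop) (z r d : ℕ) : Finset ℕ := by
  classical exact if ∃ S ⊆ pz z, S.card ≤ r ∧ ∏ p ∈ S, p = d then
    (range d).filter (fun b => ∀ p ∈ d.primeFactors, ¬ p ∣ b ∧ Q p b) else ∅

open Classical in
lemma LSA_eq (Q : ℕ → ℕ → Prop) (z r : ℕ) (S : Finset ℕ) (hS : S ⊆ pz z) (hr : S.card ≤ r) :
    LSA Q z r (∏ p ∈ S, p) = (range (∏ p ∈ S, p)).filter (fun b => ∀ p ∈ S, ¬ p ∣ b ∧ Q p b) := by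
  classical
  unfold LSA
  rw [if_pos ⟨S, hS, hr, rfl⟩]
  apply filter_congr
  intro b _
  rw [primeFactors_prod' S (fun p hp => (mem_pz.1 (hS hp)).2)]

open Classical in
lemma LSA_card (Q : ℕ → ℕ → Prop) {c : ℕ} (hQ : PerA Q c) (z r : ℕ) (S : Finset ℕ) (hS : S ⊆ pz z) (hr : S.card ≤ r) :
    (LSA Q z r (∏ p ∈ S, p)).card = ∏ p ∈ S, rhoA Q p := by
  rw [LSA_eq Q z r S hS hr]
  classical
  have h := crt_card (fun p b => ¬ p ∣ b ∧ Q p b) S (fun p hp => (mem_pz.1 (hS hp)).2)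
  have e : ∏ p ∈ S, rhoA Q p = ∏ p ∈ S, ((range p).filter (fun b => ¬ p ∣ b ∧ Q p b)).card := by
    apply prod_congr rfl
    intro p _
    unfold rhoA
    congr 1
  rw [e, ← h]
  congr 1
  apply filter_congr
  intro b _
  have h1 : ∀ p : ℕ, (p ∣ b ↔ p ∣ b % p) := by
    intro p
    rw [Nat.dvd_iff_mod_eq_zero, Nat.dvd_iff_mod_eq_zero, Nat.mod_mod]
  constructor
  · intro h p hp
    obtain ⟨h3, hi⟩ := h p hp
    exact ⟨fun h4 => h3 ((h1 p).2 h4), (hQ.per p b).1 hi⟩
  · intro h p hp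
    obtain ⟨h3, hi⟩ := h p hp
    exact ⟨fun h4 => h3 ((h1 p).1 h4), (hQ.per p b).2 hi⟩

/-- the error term in progressions -/
noncomputable def EfA (Q : ℕ → ℕ → Prop) (N z r d : ℕ) : ℝ :=
  ∑ b ∈ LSA Q z r d, |lamAP N d b - lam1 N / (Nat.totient d : ℝ)|

lemma EfA_nonneg (Q : ℕ → ℕ → Prop) (N z r d : ℕ) : 0 ≤ EfA Q N z r d := sum_nonneg fun _ _ => abs_nonneg _

open Classical in
theorem sys_sieve (Q : ℕ → ℕ → Prop) {c : ℕ} (hQ : PerA Q c) (N z r : ℕ) :
    |∑ n ∈ ((Icc 1 N).filter (fun n : ℕ => ∀ p ∈ pz z, ¬ p ∣ n)).filter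
        (fun n : ℕ => ∀ p ∈ pz z, ¬ Q p n), ArithmeticFunction.vonMangoldt n - lam1 N * ∏ p ∈ pz z, (1 - (rhoA Q p : ℝ) / (p - 1 : ℝ))| ≤
      ((z : ℝ) + 1) ^ r * (z * ((Nat.log 2 N + 1 : ℝ) * Real.log N)) + ∑ d ∈ Icc 1 ((z + 1) ^ r), EfA Q N z r d +
      2 * lam1 N * Real.exp (3 * ((2 * c : ℕ) * (1 + Real.log z)) - r) := by
  have hpp : ∀ S ⊆ pz z, ∀ p ∈ S, p.Prime := fun S hS p hp => (mem_pz.1 (hS hp)).2
  have hlN : 0 ≤ (Nat.log 2 N + 1 : ℝ) * Real.log N := by
    have := Real.log_natCast_nonneg N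
    positivity
  have hψ : 0 ≤ lam1 N := sum_nonneg fun _ _ => ArithmeticFunction.vonMangoldt_nonneg
  have key := sieve_gen' ((Icc 1 N).filter (fun n => ∀ p ∈ pz z, ¬ p ∣ n)) (fun n => ArithmeticFunction.vonMangoldt n)
    (fun _ _ => ArithmeticFunction.vonMangoldt_nonneg) (fun p n => Q p n) (pz z)
    (fun p => (rhoA Q p : ℝ) / (p - 1 : ℝ)) (fun p hp => by
      have hp2 : (2 : ℝ) ≤ p := by exact_mod_cast (mem_pz.1 hp).2.two_le
      constructor
      · apply div_nonneg (Nat.cast_nonneg _); linarith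
      · rw [div_le_one (by linarith)]
        have h1 := rhoA_le Q p
        have h2 : (rhoA Q p : ℝ) ≤ ((p - 1 : ℕ) : ℝ) := by exact_mod_cast h1
        rw [Nat.cast_sub (mem_pz.1 hp).2.one_le] at h2
        push_cast at h2
        exact h2) (lam1 N) hψ
    (fun S => z * ((Nat.log 2 N + 1 : ℝ) * Real.log N) + EfA Q N z r (∏ p ∈ S, p)) r (by
      intro S hS hr
      have hSp := hpp S hS
      set d := ∏ p ∈ S, p with hd
      have hd1 : 1 ≤ d := Nat.pos_of_ne_zero (prod_ne_zero_iff.2 fun p hp => (hSp p hp).ne_zero)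
      have hpd : ∀ p ∈ S, p ∣ d := fun p hp => dvd_prod_of_mem _ hp
      set W' : ℝ := ∑ n ∈ (Icc 1 N).filter (fun n : ℕ => ∀ p ∈ S, ¬ p ∣ n ∧ Q p n),
        ArithmeticFunction.vonMangoldt n with hW'
      have h1 : W' = ∑ b ∈ LSA Q z r d, lamAP N d b := by
        rw [hW', ← sum_fiberwise_of_maps_to (t := LSA Q z r d) (g := fun n => n % d)]
        · apply sum_congr rfl
          intro b hb
          rw [hd, LSA_eq Q z r S hS hr, ← hd, mem_filter, mem_range] at hb
          unfold lamAP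
          apply sum_congr _ (fun _ _ => rfl)
          ext n
          rw [mem_filter, mem_filter, mem_filter]
          constructor
          · rintro ⟨⟨h1, h2⟩, h3⟩
            refine ⟨h1, ?_⟩
            unfold Nat.ModEq
            rw [h3, Nat.mod_eq_of_lt hb.1]
          · rintro ⟨h1, h2⟩
            unfold Nat.ModEq at h2
            rw [Nat.mod_eq_of_lt hb.1] at h2
            refine ⟨⟨h1, fun p hp => ?_⟩, h2⟩
            obtain ⟨h3, hi⟩ := hb.2 p hp
            rw [← h2] at h3 hi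
            exact ⟨fun h4 => h3 ((dvd_mod_iff n d p (hpd p hp)).2 h4), (hQ.mod n d p (hpd p hp)).1 hi⟩
        · intro n hn
          rw [mem_filter] at hn
          rw [hd, LSA_eq Q z r S hS hr, ← hd, mem_filter, mem_range]
          refine ⟨Nat.mod_lt _ hd1, fun p hp => ?_⟩
          obtain ⟨h3, hi⟩ := hn.2 p hp
          exact ⟨fun h4 => h3 ((dvd_mod_iff n d p (hpd p hp)).1 h4), (hQ.mod n d p (hpd p hp)).2 hi⟩
      have h2 : lam1 N * ∏ p ∈ S, ((rhoA Q p : ℝ) / (p - 1 : ℝ)) = ∑ b ∈ LSA Q z r d, lam1 N / (Nat.totient d : ℝ) := by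
        rw [sum_const, nsmul_eq_mul, hd, LSA_card Q hQ z r S hS hr, totient_prod S hSp, prod_div_distrib]
        push_cast
        have h3 : ∏ p ∈ S, ((p - 1 : ℕ) : ℝ) = ∏ p ∈ S, ((p : ℝ) - 1) := by
          apply prod_congr rfl
          intro p hp
          rw [Nat.cast_sub (hSp p hp).one_le]
          push_cast
          ring
        rw [h3]
        ring
      have h3 : |W' - lam1 N * ∏ p ∈ S, ((rhoA Q p : ℝ) / (p - 1 : ℝ))| ≤ EfA Q N z r d := by
        rw [h1, h2, ← sum_sub_distrib]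
        exact abs_sum_le_sum_abs _ _
      -- comparison of W and W'
      set W : ℝ := ∑ n ∈ ((Icc 1 N).filter (fun n : ℕ => ∀ p ∈ pz z, ¬ p ∣ n)).filter
        (fun n : ℕ => ∀ p ∈ S, Q p n), ArithmeticFunction.vonMangoldt n with hW
      have h4 : |W - W'| ≤ z * ((Nat.log 2 N + 1 : ℝ) * Real.log N) := by
        have h5 : W = ∑ n ∈ Icc 1 N, if (∀ p ∈ pz z, ¬ p ∣ n) ∧ (∀ p ∈ S, Q p n) then
            ArithmeticFunction.vonMangoldt n else 0 := by
          rw [hW, filter_filter, sum_filter]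
        have h6 : W' = ∑ n ∈ Icc 1 N, if (∀ p ∈ S, ¬ p ∣ n ∧ Q p n) then
            ArithmeticFunction.vonMangoldt n else 0 := by
          rw [hW', sum_filter]
        rw [h5, h6, ← sum_sub_distrib]
        refine (abs_sum_le_sum_abs _ _).trans ?_
        have h7 : ∀ n ∈ Icc 1 N, |(if (∀ p ∈ pz z, ¬ p ∣ n) ∧ (∀ p ∈ S, Q p n) then
            ArithmeticFunction.vonMangoldt n else 0) - (if (∀ p ∈ S, ¬ p ∣ n ∧ Q p n) then
            ArithmeticFunction.vonMangoldt n else 0)| ≤ ∑ p ∈ pz z, if p ∣ n then ArithmeticFunction.vonMangoldt n else 0 := by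
          intro n _
          have h8 : (0 : ℝ) ≤ ArithmeticFunction.vonMangoldt n := ArithmeticFunction.vonMangoldt_nonneg
          have h9 : 0 ≤ ∑ p ∈ pz z, if p ∣ n then ArithmeticFunction.vonMangoldt n else 0 :=
            sum_nonneg fun p _ => by split_ifs <;> simp [h8]
          by_cases h10 : ∀ p ∈ pz z, ¬ p ∣ n
          · by_cases h11 : ∀ p ∈ S, Q p n
            · rw [if_pos ⟨h10, h11⟩, if_pos (fun p hp => ⟨h10 p (hS hp), h11 p hp⟩), sub_self, abs_zero]
              exact h9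
            · rw [if_neg (fun h => h11 h.2), if_neg (fun h => h11 (fun p hp => (h p hp).2)), sub_self, abs_zero]
              exact h9
          · rw [if_neg (fun h => h10 h.1), zero_sub, abs_neg]
            push Not at h10
            obtain ⟨p, hp, hpn⟩ := h10
            have h11 : |(if (∀ p ∈ S, ¬ p ∣ n ∧ Q p n) then
              ArithmeticFunction.vonMangoldt n else 0)| ≤ ArithmeticFunction.vonMangoldt n := by
              split_ifs
              · rw [abs_of_nonneg h8]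
              · rw [abs_zero]; exact h8
            refine h11.trans ?_
            have h12 := single_le_sum (f := fun p => if p ∣ n then ArithmeticFunction.vonMangoldt n else (0 : ℝ))
              (s := pz z) (fun p _ => by split_ifs <;> simp [h8]) hp
            simp only [if_pos hpn] at h12
            exact h12
        refine (sum_le_sum h7).trans ?_
        rw [sum_comm]
        have h8 : ∀ p ∈ pz z, ∑ n ∈ Icc 1 N, (if p ∣ n then ArithmeticFunction.vonMangoldt n else 0) ≤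
            (Nat.log 2 N + 1 : ℝ) * Real.log N := by
          intro p hp
          rw [← sum_filter]
          exact lam_mult_prime N p (mem_pz.1 hp).2
        refine (sum_le_sum h8).trans ?_
        rw [sum_const, nsmul_eq_mul]
        apply mul_le_mul_of_nonneg_right _ hlN
        exact_mod_cast card_pz_le z
      have h5 : W - lam1 N * ∏ p ∈ S, ((rhoA Q p : ℝ) / (p - 1 : ℝ)) = (W - W') + (W' - lam1 N * ∏ p ∈ S, ((rhoA Q p : ℝ) / (p - 1 : ℝ))) := by ring
      rw [h5]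
      exact (abs_add_le _ _).trans (add_le_add h4 h3))
  refine key.trans ?_
  have e1 : ∑ j ∈ range (r + 1), ∑ S ∈ (pz z).powersetCard j, (z * ((Nat.log 2 N + 1 : ℝ) * Real.log N) + EfA Q N z r (∏ p ∈ S, p)) =
      ((∑ j ∈ range (r + 1), ((pz z).powersetCard j).card : ℕ) : ℝ) * (z * ((Nat.log 2 N + 1 : ℝ) * Real.log N)) +
      ∑ j ∈ range (r + 1), ∑ S ∈ (pz z).powersetCard j, EfA Q N z r (∏ p ∈ S, p) := by
    push_cast
    rw [sum_mul, ← sum_add_distrib]
    apply sum_congr rfl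
    intro j _
    rw [sum_add_distrib, sum_const, nsmul_eq_mul]
  rw [e1]
  have h1 := card_small (pz z) r
  have h2 : (((pz z).card : ℝ) + 1) ^ r ≤ ((z : ℝ) + 1) ^ r := by
    have : ((pz z).card : ℝ) ≤ z := by exact_mod_cast card_pz_le z
    gcongr
  have h3 : ((∑ j ∈ range (r + 1), ((pz z).powersetCard j).card : ℕ) : ℝ) * (z * ((Nat.log 2 N + 1 : ℝ) * Real.log N)) ≤
      ((z : ℝ) + 1) ^ r * (z * ((Nat.log 2 N + 1 : ℝ) * Real.log N)) :=
    mul_le_mul_of_nonneg_right (h1.trans h2) (by positivity)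
  have h4 := sum_small_le z r (fun d => EfA Q N z r d) (fun d => EfA_nonneg Q N z r d)
  have h5 : es (fun p => (rhoA Q p : ℝ) / (p - 1 : ℝ)) (pz z) r ≤ Real.exp (3 * ((2 * c : ℕ) * (1 + Real.log z)) - r) := by
    have hg : ∀ p ∈ pz z, (rhoA Q p : ℝ) / (p - 1 : ℝ) ≤ (2 * c : ℕ) * (1 / (p : ℝ)) := by
      intro p hp
      have hp2 : (2 : ℝ) ≤ p := by exact_mod_cast (mem_pz.1 hp).2.two_le
      have h6 : (rhoA Q p : ℝ) ≤ c := by exact_mod_cast hQ.few p (mem_pz.1 hp).2
      have hk : (0 : ℝ) ≤ c := Nat.cast_nonneg _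
      rw [mul_one_div, div_le_div_iff₀ (by linarith) (by linarith)]
      push_cast
      nlinarith
    refine (es_le (fun p hp => by
      have hp2 : (2 : ℝ) ≤ p := by exact_mod_cast (mem_pz.1 hp).2.two_le
      apply div_nonneg (Nat.cast_nonneg _); linarith) r).trans ?_
    apply Real.exp_le_exp.2
    have h6 := sum_le_sum hg
    rw [← mul_sum] at h6
    have h7 := sum_pz_le z
    have h8 : ((2 * c : ℕ) : ℝ) * ∑ p ∈ pz z, 1 / (p : ℝ) ≤ ((2 * c : ℕ) : ℝ) * (1 + Real.log z) :=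
      mul_le_mul_of_nonneg_left h7 (Nat.cast_nonneg _)
    linarith
  have h6 : 2 * lam1 N * es (fun p => (rhoA Q p : ℝ) / (p - 1 : ℝ)) (pz z) r ≤
      2 * lam1 N * Real.exp (3 * ((2 * c : ℕ) * (1 + Real.log z)) - r) :=
    mul_le_mul_of_nonneg_left h5 (by positivity)
  linarith

lemma LSA_fam (Q : ℕ → ℕ → Prop) {c : ℕ} (hQ : PerA Q c) (hc : 1 ≤ c) (z r : ℕ) (A : ℝ) (hA : (c : ℝ) ^ r ≤ A) : H343E.Fam A (LSA Q z r) := by
  classical
  constructor
  · intro q b hb
    unfold LSA at hb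
    split_ifs at hb with h
    · rw [mem_filter, mem_range] at hb
      refine ⟨hb.1, ?_⟩
      rw [Nat.coprime_iff_gcd_eq_one]
      by_contra hne
      obtain ⟨p, hp, hpb, hpq⟩ := Nat.Prime.not_coprime_iff_dvd.1 hne
      have hq0 : q ≠ 0 := by omega
      exact (hb.2 p (Nat.mem_primeFactors.2 ⟨hp, hpq, hq0⟩)).1 hpb
    · simp at hb
  · intro q
    by_cases h : ∃ S ⊆ pz z, S.card ≤ r ∧ ∏ p ∈ S, p = q
    · obtain ⟨S, hS, hr, rfl⟩ := h
      rw [LSA_card Q hQ z r S hS hr]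
      refine le_trans ?_ hA
      push_cast
      calc ∏ p ∈ S, (rhoA Q p : ℝ) ≤ ∏ _p ∈ S, (c : ℝ) := prod_le_prod (fun _ _ => Nat.cast_nonneg _)
            (fun p hp => by exact_mod_cast hQ.few p (mem_pz.1 (hS hp)).2)
        _ = (c : ℝ) ^ S.card := by rw [prod_const]
        _ ≤ (c : ℝ) ^ r := pow_le_pow_right₀ (by exact_mod_cast hc) hr
    · have : LSA Q z r q = ∅ := by
        unfold LSA
        rw [if_neg h]
      rw [this, card_empty, Nat.cast_zero]
      exact (pow_nonneg (Nat.cast_nonneg _) _).trans hA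


end Pool.Agent.H373R2.T7
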