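import Mathlib
import Pool.Agent.H45.Lib.S8.H373R2.T7.BilLam

/-! The bilinear estimate for a bounded function with small exponential sums, along polynomials. -/

namespace Pool.Agent.H373R2.T7
open Finset Polynomial
open Pool.Agent.H807R2.Dav

/-- a function on the natural numbers, extended by zero -/
noncomputable def exI (h : ℕ → ℂ) (k : ℤ) : ℂ := if 1 ≤ k then h k.toNat else 0

/-- exponential sums with arbitrary logarithmic savings -/
def SupSmall (h : ℕ → ℂ) : Prop := ∀ U : ℕ, ∃ N0 : ℕ, ∀ N : ℕ, N0 ≤ N → ∀ α : ℝ,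
    ‖∑ n ∈ Icc 1 N, h n * ee ((n : ℝ) * α)‖ ≤ N / Real.log N ^ U

theorem bil_h (h : ℕ → ℂ) (hb : ∀ n, ‖h n‖ ≤ 1) (hsup : SupSmall h)
    (f : ℤ[X]) (hd : 1 ≤ f.natDegree) (hl : 0 < f.leadingCoeff) (B : ℕ) (hB : 1 ≤ B) (U : ℕ) :
    ∃ N0 : ℕ, ∀ N : ℕ, N0 ≤ N → ∀ x : ℕ, N ≤ B * x ^ f.natDegree → x ^ f.natDegree ≤ B * N →
    ∀ A : ℕ, A ≤ B * N →
    ∀ σ : ℤ, (σ = 1 ∨ σ = -1) → ∀ G c : ℕ → ℂ, (∀ a, ‖G a‖ ≤ 1) → (∀ m, ‖c m‖ ≤ 1) →
    ‖∑ a ∈ Icc 1 A, ∑ m ∈ Icc 1 x, G a * c m * exI h (a + σ * f.eval (m : ℤ))‖ ≤ N * x / Real.log N ^ U := by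
  set d := f.natDegree with hdd
  set c1 : ℕ := B + cf f * B with hc1
  have hc1B : 1 ≤ c1 := by omega
  obtain ⟨p, hp, C, hC, hmom⟩ := moment f hd hl (4 * c1 * B) (by nlinarith)
  set U' : ℕ := 2 * p * (U + 2) + U + 1 with hU'
  obtain ⟨m1, h1⟩ := hsup U'
  obtain ⟨m3, h3⟩ := ev_L' (max (2 * (C * c1)) (max (4 * c1) (max 1 (Real.log c1 + 1))))
  refine ⟨max m1 (max m3 3), fun N hN x hx1 hx2 A hA σ hσ G c hG hc => ?_⟩
  have hm1 : m1 ≤ N := le_trans (le_max_left _ _) hN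
  have hL := h3 N (le_trans (le_trans (le_max_left _ _) (le_max_right _ _)) hN)
  have hN3 : 3 ≤ N := le_trans (le_trans (le_max_right _ _) (le_max_right _ _)) hN
  have hNr : (3 : ℝ) ≤ N := by exact_mod_cast hN3
  have hN0 : (0 : ℝ) < N := by linarith
  set L := Real.log N with hLd
  have hL1 : 2 * (C * c1) ≤ L := (le_max_left _ _).trans hL
  have hL2 : 4 * (c1 : ℝ) ≤ L := ((le_max_left _ _).trans (le_max_right _ _)).trans hL
  have hL4 : Real.log c1 + 1 ≤ L := (((le_max_right _ _).trans (le_max_right _ _)).trans (le_max_right _ _)).trans hL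
  have hc1r : (1 : ℝ) ≤ c1 := by exact_mod_cast hc1B
  have hL0 : 0 < L := by linarith
  have hLge1 : 1 ≤ L := by linarith
  have hx : 1 ≤ x := by
    rcases Nat.eq_zero_or_pos x with h | h
    · rw [h, zero_pow (by omega), mul_zero] at hx1; omega
    · exact h
  have hx0 : (0 : ℝ) < x := by exact_mod_cast hx
  set H : ℕ := c1 * N with hH
  have hHN : N ≤ H := Nat.le_mul_of_pos_left _ (by omega)
  have hH1 : 1 ≤ H := by omega
  have hHr : (H : ℝ) = c1 * N := by rw [hH]; push_cast; ring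
  have hlogH1 : L ≤ Real.log H := Real.log_le_log hN0 (by exact_mod_cast hHN)
  set M : ℕ := 4 * H with hM
  have hsz : ∀ m ∈ Icc 1 x, |σ * f.eval (m : ℤ)| ≤ ((cf f * B * N : ℕ) : ℤ) := by
    intro m hm
    rw [mem_Icc] at hm
    have h4 : |σ * f.eval (m : ℤ)| = |f.eval (m : ℤ)| := by
      rcases hσ with h | h <;> rw [h] <;> simp
    rw [h4]
    refine (abs_eval_le f m hm.1).trans ?_
    have h5 : cf f * m ^ f.natDegree ≤ cf f * B * N := by
      rw [mul_assoc]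
      apply Nat.mul_le_mul_left
      exact (Nat.pow_le_pow_left hm.2 _).trans hx2
    exact_mod_cast h5
  have hHc : (H : ℤ) = B * N + ((cf f * B * N : ℕ) : ℤ) := by rw [hH, hc1]; push_cast; ring
  have hM1 : 1 ≤ M := by omega
  have hcond : ∀ a ∈ Icc 1 A, ∀ m ∈ Icc 1 x, ∀ n ∈ Icc 1 H, |(a : ℤ) + σ * f.eval (m : ℤ) - n| < M := by
    intro a ha m hm n hn
    have h4 := abs_le.1 (hsz m hm)
    rw [mem_Icc] at ha hn
    have h5 : (a : ℤ) ≤ B * N := by exact_mod_cast ha.2.trans hA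
    rw [abs_lt]
    constructor <;> push_cast [hM] <;> omega
  have hAH : A ≤ H := hA.trans (by rw [hH, hc1]; nlinarith [Nat.zero_le (cf f * B * N)])
  have hmom1 := hmom σ hσ x M hx hM1 (by
    rw [hM, hH]
    calc 4 * (c1 * N) ≤ 4 * (c1 * (B * x ^ d)) := by gcongr
      _ = 4 * c1 * B * x ^ d := by ring)
  have hsup1 : ∀ α : ℝ, ‖∑ n ∈ Icc 1 H, h n * ee ((n : ℝ) * α)‖ ≤ H / L ^ U' := by
    intro α
    refine (h1 H (hm1.trans hHN) α).trans ?_
    apply div_le_div_of_nonneg_left (by positivity) (by positivity)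
    exact pow_le_pow_left₀ hL0.le hlogH1 _
  have hfs : ∑ n ∈ Icc 1 H, ‖h n‖ ^ 2 ≤ H := by
    have h4 : ∀ n ∈ Icc 1 H, ‖h n‖ ^ 2 ≤ 1 := fun n _ => pow_le_one₀ (norm_nonneg _) (hb n)
    refine (sum_le_sum h4).trans ?_
    rw [sum_const, Nat.card_Icc, nsmul_eq_mul]
    simp
  have hη : 0 < 1 / L ^ (U + 2) := by positivity
  have key := bil_main A H x M hM1 h G c (fun m => σ * f.eval (m : ℤ)) (H / L ^ U') (1 / L ^ (U + 2)) p C
    H hcond (hAH.trans (by omega)) (by omega) hx hsup1 hG hc hmom1 hfs hη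
  have heq : ∑ a ∈ Icc 1 A, ∑ m ∈ Icc 1 x, G a * c m * exI h (a + σ * f.eval (m : ℤ)) =
      ∑ a ∈ Icc 1 A, ∑ m ∈ Icc 1 x, G a * c m * fz h H (a + σ * f.eval (m : ℤ)) := by
    apply sum_congr rfl
    intro a ha
    apply sum_congr rfl
    intro m hm
    congr 1
    unfold fz exI
    have h4 := abs_le.1 (hsz m hm)
    rw [mem_Icc] at ha
    have h5 : (a : ℤ) ≤ B * N := by exact_mod_cast ha.2.trans hA
    by_cases h6 : 1 ≤ (a : ℤ) + σ * f.eval (m : ℤ)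
    · rw [if_pos h6, if_pos ⟨h6, by omega⟩]
    · rw [if_neg h6, if_neg (fun h => h6 h.1)]
  rw [heq]
  refine key.trans ?_
  have hAr : (A : ℝ) ≤ H := by exact_mod_cast hAH
  have hHr0 : (0 : ℝ) < H := by exact_mod_cast hH1
  have hMr : (M : ℝ) = 4 * H := by rw [hM]; push_cast; ring
  have t1 : C / (1 / L ^ (U + 2)) ^ (2 * p) * (H / L ^ U') * A * x / M ≤ (1 / 2) * (N * x / L ^ U) := by
    have h4 : C / (1 / L ^ (U + 2)) ^ (2 * p) * (H / L ^ U') = C * H / L ^ (U + 1) := by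
      rw [div_pow, one_pow, ← pow_mul, hU']
      have e : L ^ (2 * p * (U + 2) + U + 1) = L ^ ((U + 2) * (2 * p)) * L ^ (U + 1) := by
        rw [← pow_add]; congr 1; ring
      rw [e]
      field_simp
    rw [h4, hMr]
    have h5 : C * H / L ^ (U + 1) * A * x / (4 * H) ≤ C * H / L ^ (U + 1) * x := by
      rw [div_le_iff₀ (by positivity)]
      have h6 : 0 ≤ C * H / L ^ (U + 1) * x := by positivity
      nlinarith
    refine h5.trans ?_
    rw [hHr]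
    calc C * (c1 * N) / L ^ (U + 1) * x = (C * c1 / L) * (N * x / L ^ U) := by rw [pow_succ]; field_simp
      _ ≤ (1 / 2) * (N * x / L ^ U) := by
          apply mul_le_mul_of_nonneg_right _ (by positivity)
          rw [div_le_iff₀ hL0]; linarith
  have t2 : 1 / L ^ (U + 2) * x * Real.sqrt (H * A) ≤ (1 / 2) * (N * x / L ^ U) := by
    have h4 : Real.sqrt (H * A) ≤ H := by
      rw [Real.sqrt_le_left (by positivity)]
      have : (H : ℝ) * A ≤ H * H := mul_le_mul_of_nonneg_left hAr (by positivity)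
      calc _ ≤ _ := this
        _ = _ := by ring
    calc 1 / L ^ (U + 2) * x * Real.sqrt (H * A) ≤ 1 / L ^ (U + 2) * x * H :=
          mul_le_mul_of_nonneg_left h4 (by positivity)
      _ = (c1 / L / L) * (N * x / L ^ U) := by rw [hHr, pow_add]; field_simp
      _ ≤ (1 / 2) * (N * x / L ^ U) := by
          apply mul_le_mul_of_nonneg_right _ (by positivity)
          have h6 : (c1 : ℝ) / L ≤ 1 / 2 := by rw [div_le_iff₀ hL0]; linarith
          have h7 : (c1 : ℝ) / L / L ≤ c1 / L := div_le_self (by positivity) hLge1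
          linarith
  linarith

/-- the first moment over the polynomial variable, for an arbitrary bounded weight -/
theorem l1_h (h : ℕ → ℂ) (hb : ∀ n, ‖h n‖ ≤ 1) (hsup : SupSmall h)
    (f : ℤ[X]) (hd : 1 ≤ f.natDegree) (hl : 0 < f.leadingCoeff) (B : ℕ) (hB : 1 ≤ B) (U : ℕ) :
    ∃ N0 : ℕ, ∀ N : ℕ, N0 ≤ N → ∀ x : ℕ, N ≤ B * x ^ f.natDegree → x ^ f.natDegree ≤ B * N →
    ∀ A : ℕ, A ≤ B * N →
    ∀ σ : ℤ, (σ = 1 ∨ σ = -1) → ∀ G : ℕ → ℂ, (∀ a, ‖G a‖ ≤ 1) →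
    ∑ m ∈ Icc 1 x, ‖∑ a ∈ Icc 1 A, G a * exI h (a + σ * f.eval (m : ℤ))‖ ≤ N * x / Real.log N ^ U := by
  obtain ⟨N0, hN0⟩ := bil_h h hb hsup f hd hl B hB U
  refine ⟨N0, fun N hN x hx1 hx2 A hA σ hσ G hG => ?_⟩
  set S : ℕ → ℂ := fun m => ∑ a ∈ Icc 1 A, G a * exI h (a + σ * f.eval (m : ℤ)) with hS
  set c : ℕ → ℂ := fun m => (starRingEnd ℂ) (S m) / ‖S m‖ with hc
  have hc1 : ∀ m, ‖c m‖ ≤ 1 := by
    intro m
    rw [hc]
    simp only [norm_div, RCLike.norm_conj, Complex.norm_real, norm_norm]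
    exact div_self_le_one _
  have key := hN0 N hN x hx1 hx2 A hA σ hσ G c hG hc1
  refine le_trans (le_of_eq ?_) key
  have e : ∑ a ∈ Icc 1 A, ∑ m ∈ Icc 1 x, G a * c m * exI h (a + σ * f.eval (m : ℤ)) =
      ((∑ m ∈ Icc 1 x, ‖S m‖ : ℝ) : ℂ) := by
    rw [sum_comm]
    push_cast
    apply sum_congr rfl
    intro m _
    have e1 : ∑ a ∈ Icc 1 A, G a * c m * exI h (a + σ * f.eval (m : ℤ)) = c m * S m := by
      rw [hS, mul_sum]
      apply sum_congr rfl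
      intro a _
      ring
    rw [e1, hc]
    simp only
    by_cases h0 : ‖S m‖ = 0
    · rw [norm_eq_zero.1 h0]; simp
    · have h0' : ((‖S m‖ : ℝ) : ℂ) ≠ 0 := by exact_mod_cast h0
      rw [div_mul_eq_mul_div, mul_comm, Complex.mul_conj', pow_two]
      field_simp
  rw [e, Complex.norm_real, Real.norm_of_nonneg (sum_nonneg fun _ _ => norm_nonneg _)]

/-- all but few values of the polynomial variable -/
theorem few_h (h : ℕ → ℂ) (hb : ∀ n, ‖h n‖ ≤ 1) (hsup : SupSmall h)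
    (f : ℤ[X]) (hd : 1 ≤ f.natDegree) (hl : 0 < f.leadingCoeff) (B : ℕ) (hB : 1 ≤ B) (U : ℕ) :
    ∃ N0 : ℕ, ∀ N : ℕ, N0 ≤ N → ∀ x : ℕ, N ≤ B * x ^ f.natDegree → x ^ f.natDegree ≤ B * N →
    ∀ A : ℕ, A ≤ B * N →
    ∀ σ : ℤ, (σ = 1 ∨ σ = -1) → ∀ G : ℕ → ℂ, (∀ a, ‖G a‖ ≤ 1) →
    (((Icc 1 x).filter (fun m : ℕ => N / Real.log N ^ U < ‖∑ a ∈ Icc 1 A, G a * exI h (a + σ * f.eval (m : ℤ))‖)).card : ℝ) ≤
      x / Real.log N ^ U := by
  obtain ⟨N0, hN0⟩ := l1_h h hb hsup f hd hl B hB (2 * U)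
  refine ⟨max N0 3, fun N hN x hx1 hx2 A hA σ hσ G hG => ?_⟩
  have h3 : 3 ≤ N := le_trans (le_max_right _ _) hN
  have hNr : (3 : ℝ) ≤ N := by exact_mod_cast h3
  have hN00 : (0 : ℝ) < N := by linarith
  have hL : 0 < Real.log N := Real.log_pos (by linarith)
  have key := hN0 N (le_trans (le_max_left _ _) hN) x hx1 hx2 A hA σ hσ G hG
  set S : ℕ → ℝ := fun m => ‖∑ a ∈ Icc 1 A, G a * exI h (a + σ * f.eval (m : ℤ))‖ with hS
  set T := (Icc 1 x).filter (fun m => N / Real.log N ^ U < S m) with hT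
  have h4 : (T.card : ℝ) * (N / Real.log N ^ U) ≤ ∑ m ∈ T, S m := by
    rw [← nsmul_eq_mul, ← sum_const]
    apply sum_le_sum
    intro m hm
    rw [hT, mem_filter] at hm
    exact hm.2.le
  have h5 : ∑ m ∈ T, S m ≤ ∑ m ∈ Icc 1 x, S m := sum_le_sum_of_subset_of_nonneg (filter_subset _ _) (fun _ _ _ => norm_nonneg _)
  have h6 := (h4.trans h5).trans key
  have h7 : 0 < (N : ℝ) / Real.log N ^ U := by positivity
  rw [← le_div_iff₀ h7] at h6
  refine h6.trans (le_of_eq ?_)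
  rw [two_mul, pow_add]
  field_simp

end Pool.Agent.H373R2.T7
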