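import Mathlib
import Pool.Agent.H45.Lib.S8.H373R2.T7.BilH
import Pool.Agent.H45.Lib.S8.H373R2.T7.EnergyDef

/-! The estimate for all but few shifts in a family of small additive energy of some order. -/

namespace Pool.Agent.H373R2.T7
open Finset Polynomial
open Pool.Agent.H807R2.Dav

lemma pow_sum_eq (p x : ℕ) (s : ℕ → ℤ) (M : ℕ) (hM : 1 ≤ M) :
    ∑ t ∈ range M, ‖∑ m ∈ Icc 1 x, ee ((t : ℝ) * ((s m : ℝ) / M))‖ ^ (2 * p) =
      ∑ v ∈ Fintype.piFinset (fun _ : Fin p => Icc 1 x), ∑ w ∈ Fintype.piFinset (fun _ : Fin p => Icc 1 x),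
        if (M : ℤ) ∣ ∑ i, s (v i) - ∑ i, s (w i) then (M : ℝ) else 0 := by
  have h3 : ∀ t : ℕ, ‖∑ m ∈ Icc 1 x, ee ((t : ℝ) * ((s m : ℝ) / M))‖ ^ (2 * p) =
      ‖∑ v ∈ Fintype.piFinset (fun _ : Fin p => Icc 1 x), ee ((t : ℝ) * (((∑ i, s (v i) : ℤ) : ℝ) / M))‖ ^ 2 := by
    intro t
    have h4 := pow_expand p x (fun _ => 1) s M t
    simp only [prod_const_one, one_mul] at h4
    rw [← h4, norm_pow, ← pow_mul, mul_comm 2 p]
  rw [sum_congr rfl fun t _ => h3 t]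
  have h2 := sq_expand (Fintype.piFinset (fun _ : Fin p => Icc 1 x)) (fun _ => 1) (fun v => ∑ i, s (v i)) M hM
  simp only [one_mul, map_one] at h2
  have h5 : (((∑ t ∈ range M, ‖∑ v ∈ Fintype.piFinset (fun _ : Fin p => Icc 1 x), ee ((t : ℝ) * (((∑ i, s (v i) : ℤ) : ℝ) / M))‖ ^ 2 : ℝ)) : ℂ) =
      ((∑ v ∈ Fintype.piFinset (fun _ : Fin p => Icc 1 x), ∑ w ∈ Fintype.piFinset (fun _ : Fin p => Icc 1 x),
        (if (M : ℤ) ∣ ∑ i, s (v i) - ∑ i, s (w i) then (M : ℝ) else 0) : ℝ) : ℂ) := by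
    rw [h2]
    push_cast
    apply sum_congr rfl
    intro i _
    apply sum_congr rfl
    intro j _
    split_ifs <;> simp
  exact_mod_cast h5

lemma energy_eq (p x : ℕ) (s : ℕ → ℤ) (M : ℕ) :
    (M : ℝ) * energy p x s = ∑ v ∈ Fintype.piFinset (fun _ : Fin p => Icc 1 x), ∑ w ∈ Fintype.piFinset (fun _ : Fin p => Icc 1 x),
        if ∑ i, s (v i) = ∑ i, s (w i) then (M : ℝ) else 0 := by
  unfold energy
  rw [← sum_product', ← sum_filter, sum_const, nsmul_eq_mul, mul_comm]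

/-- the even moment of the exponential sum over a modulus larger than all differences -/
lemma moment_energy (p x : ℕ) (s : ℕ → ℤ) (M : ℕ) (R : ℕ) (hM : 1 ≤ M) (hR : ∀ m ∈ Icc 1 x, |s m| ≤ R) (hMR : 2 * p * R < M) :
    ∑ t ∈ range M, ‖∑ m ∈ Icc 1 x, ee ((t : ℝ) * ((s m : ℝ) / M))‖ ^ (2 * p) = M * energy p x s := by
  rw [pow_sum_eq p x s M hM, energy_eq]
  apply sum_congr rfl
  intro v hv
  apply sum_congr rfl
  intro w hw
  rw [Fintype.mem_piFinset] at hv hw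
  have hb : ∀ u : Fin p → ℕ, (∀ i, u i ∈ Icc 1 x) → |∑ i, s (u i)| ≤ p * R := by
    intro u hu
    refine (abs_sum_le_sum_abs _ _).trans ((sum_le_sum fun i _ => hR _ (hu i)).trans ?_)
    rw [sum_const, card_univ, Fintype.card_fin, nsmul_eq_mul]
  have h1 := abs_le.1 (hb v hv)
  have h2 := abs_le.1 (hb w hw)
  have h3 : |∑ i, s (v i) - ∑ i, s (w i)| < M := by
    have h4 : ((2 * p * R : ℕ) : ℤ) < M := by exact_mod_cast hMR
    push_cast at h4
    rw [abs_lt]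
    constructor <;> linarith [h1.1, h1.2, h2.1, h2.2]
  by_cases h : ∑ i, s (v i) = ∑ i, s (w i)
  · rw [if_pos h, if_pos (by rw [h, sub_self]; exact dvd_zero _)]
  · rw [if_neg h, if_neg]
    intro hd
    apply h
    have := Int.eq_zero_of_abs_lt_dvd hd h3
    omega

/-- an upper bound for the energy from a moment over any modulus -/
lemma energy_le (p x : ℕ) (s : ℕ → ℤ) (M : ℕ) (hM : 1 ≤ M) :
    (M : ℝ) * energy p x s ≤ ∑ t ∈ range M, ‖∑ m ∈ Icc 1 x, ee ((t : ℝ) * ((s m : ℝ) / M))‖ ^ (2 * p) := by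
  rw [pow_sum_eq p x s M hM, energy_eq]
  apply sum_le_sum
  intro v _
  apply sum_le_sum
  intro w _
  by_cases h : ∑ i, s (v i) = ∑ i, s (w i)
  · rw [if_pos h, if_pos (by rw [h, sub_self]; exact dvd_zero _)]
  · rw [if_neg h]
    split_ifs <;> positivity

/-- the first moment over a family of shifts of nearly minimal energy -/
theorem l1_e (h : ℕ → ℂ) (hb : ∀ n, ‖h n‖ ≤ 1) (hsup : SupSmall h) (p B C U : ℕ) :
    ∃ N0 : ℕ, ∀ N : ℕ, N0 ≤ N → ∀ (x : ℕ) (s : ℕ → ℤ), (∀ m ∈ Icc 1 x, |s m| ≤ B * N) →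
    (energy p x s : ℝ) * N ≤ Real.log N ^ C * (x : ℝ) ^ (2 * p) →
    ∀ A : ℕ, A ≤ B * N → ∀ G : ℕ → ℂ, (∀ a, ‖G a‖ ≤ 1) →
    ∑ m ∈ Icc 1 x, ‖∑ a ∈ Icc 1 A, G a * exI h (a + s m)‖ ≤ N * x / Real.log N ^ U := by
  set K : ℕ := (4 * p + 5) * (2 * (B + 1) ^ 2) + 2 * (B + 1) with hK
  set U' : ℕ := C + 2 * p * (U + 1) + U + 1 with hU'
  obtain ⟨m1, h1⟩ := hsup U'
  obtain ⟨m3, h3⟩ := ev_L' (K + 1)
  refine ⟨max m1 (max m3 3), fun N hN x s hs hE A hA G hG => ?_⟩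
  have hm1 : m1 ≤ N := le_trans (le_max_left _ _) hN
  have hL := h3 N (le_trans (le_trans (le_max_left _ _) (le_max_right _ _)) hN)
  have hN3 : 3 ≤ N := le_trans (le_trans (le_max_right _ _) (le_max_right _ _)) hN
  have hNr : (3 : ℝ) ≤ N := by exact_mod_cast hN3
  have hN0 : (0 : ℝ) < N := by linarith
  set L := Real.log N with hLd
  have hK0 : (0 : ℝ) ≤ K := Nat.cast_nonneg _
  have hLge1 : 1 ≤ L := by linarith
  have hL0 : 0 < L := by linarith
  rcases Nat.eq_zero_or_pos x with hx | hx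
  · rw [hx]; simp
  have hx0 : (0 : ℝ) < x := by exact_mod_cast hx
  set B1 : ℕ := B + 1 with hB1
  have hB1pos : 1 ≤ B1 := by omega
  set H : ℕ := 2 * (B1 * N) with hH
  set M : ℕ := (4 * p + 5) * (B1 * N) with hM
  have hBN : B * N ≤ B1 * N := Nat.mul_le_mul_right _ (by omega)
  have hB1N : 1 ≤ B1 * N := Nat.mul_pos hB1pos (by omega)
  have hHN : N ≤ H := by
    have : N ≤ B1 * N := Nat.le_mul_of_pos_left _ hB1pos
    omega
  have hH1 : 1 ≤ H := by omega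
  have hM5 : 5 * (B1 * N) ≤ M := by
    rw [hM]; exact Nat.mul_le_mul_right _ (by omega)
  have hM1 : 1 ≤ M := by omega
  have hHM : H ≤ M := by omega
  have hHr : (H : ℝ) = 2 * (B1 * N) := by rw [hH]; push_cast; ring
  have hMr : (M : ℝ) = (4 * p + 5) * (B1 * N) := by rw [hM]; push_cast; ring
  have hlogH1 : L ≤ Real.log H := Real.log_le_log hN0 (by exact_mod_cast hHN)
  have hcond : ∀ a ∈ Icc 1 A, ∀ m ∈ Icc 1 x, ∀ n ∈ Icc 1 H, |(a : ℤ) + s m - n| < M := by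
    intro a ha m hm n hn
    have h4 := abs_le.1 (hs m hm)
    rw [mem_Icc] at ha hn
    have h5 : (a : ℤ) ≤ B * N := by exact_mod_cast ha.2.trans hA
    have h6 : (n : ℤ) ≤ 2 * (B1 * N) := by exact_mod_cast hn.2
    have h7 : (5 : ℤ) * (B1 * N) ≤ M := by exact_mod_cast hM5
    have h8 : (B : ℤ) * N ≤ B1 * N := by exact_mod_cast hBN
    have h9 : (1 : ℤ) ≤ B1 * N := by exact_mod_cast hB1N
    have h10 : (0 : ℤ) ≤ a := by positivity
    have h11 : (0 : ℤ) ≤ n := by positivity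
    rw [abs_lt]
    constructor <;> linarith [h4.1, h4.2]
  have hAM : A ≤ M := hA.trans (by omega)
  have hmomE := moment_energy p x s M (B * N) hM1 (fun m hm => by
    have := hs m hm
    push_cast
    exact this) (by
    have h4 : 2 * p * (B * N) ≤ 2 * p * (B1 * N) := Nat.mul_le_mul_left _ hBN
    have h5 : 2 * p * (B1 * N) < (4 * p + 5) * (B1 * N) := Nat.mul_lt_mul_of_pos_right (by omega) hB1N
    omega)
  set C0 : ℝ := (4 * p + 5) * B1 * L ^ C with hC0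
  have hmom : ∑ t ∈ range M, (‖∑ m ∈ Icc 1 x, ee ((t : ℝ) * ((s m : ℝ) / M))‖ / x) ^ (2 * p) ≤ C0 := by
    have h2 : ∑ t ∈ range M, (‖∑ m ∈ Icc 1 x, ee ((t : ℝ) * ((s m : ℝ) / M))‖ / x) ^ (2 * p) =
        (M * energy p x s) / (x : ℝ) ^ (2 * p) := by
      rw [← hmomE, sum_div]
      exact sum_congr rfl fun t _ => div_pow _ _ _
    rw [h2, div_le_iff₀ (by positivity), hMr]
    calc (4 * (p : ℝ) + 5) * (B1 * N) * energy p x s = (4 * p + 5) * B1 * (energy p x s * N) := by ring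
      _ ≤ (4 * p + 5) * B1 * (L ^ C * (x : ℝ) ^ (2 * p)) := mul_le_mul_of_nonneg_left hE (by positivity)
      _ = _ := by rw [hC0]; ring
  have hsup1 : ∀ α : ℝ, ‖∑ n ∈ Icc 1 H, h n * ee ((n : ℝ) * α)‖ ≤ H / L ^ U' := by
    intro α
    refine (h1 H (hm1.trans hHN) α).trans ?_
    apply div_le_div_of_nonneg_left (by positivity) (by positivity)
    exact pow_le_pow_left₀ hL0.le hlogH1 _
  have hfs : ∑ n ∈ Icc 1 H, ‖h n‖ ^ 2 ≤ H := by
    have h4 : ∀ n ∈ Icc 1 H, ‖h n‖ ^ 2 ≤ 1 := fun n _ => pow_le_one₀ (norm_nonneg _) (hb n)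
    refine (sum_le_sum h4).trans ?_
    rw [sum_const, Nat.card_Icc, nsmul_eq_mul]
    simp
  have hη : 0 < 1 / L ^ (U + 1) := by positivity
  set S : ℕ → ℂ := fun m => ∑ a ∈ Icc 1 A, G a * exI h (a + s m) with hS
  set c : ℕ → ℂ := fun m => (starRingEnd ℂ) (S m) / ‖S m‖ with hc
  have hc1 : ∀ m, ‖c m‖ ≤ 1 := by
    intro m
    rw [hc]
    simp only [norm_div, RCLike.norm_conj, Complex.norm_real, norm_norm]
    exact div_self_le_one _
  have key := bil_main A H x M hM1 h G c s (H / L ^ U') (1 / L ^ (U + 1)) p C0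
    H hcond hAM hHM hx hsup1 hG hc1 hmom hfs hη
  have heq : ∑ a ∈ Icc 1 A, ∑ m ∈ Icc 1 x, G a * c m * fz h H (a + s m) =
      ((∑ m ∈ Icc 1 x, ‖S m‖ : ℝ) : ℂ) := by
    have e0 : ∑ a ∈ Icc 1 A, ∑ m ∈ Icc 1 x, G a * c m * fz h H (a + s m) =
        ∑ a ∈ Icc 1 A, ∑ m ∈ Icc 1 x, G a * c m * exI h (a + s m) := by
      apply sum_congr rfl
      intro a ha
      apply sum_congr rfl
      intro m hm
      congr 1
      unfold fz exI
      have h4 := abs_le.1 (hs m hm)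
      rw [mem_Icc] at ha
      have h5 : (a : ℤ) ≤ B * N := by exact_mod_cast ha.2.trans hA
      have h8 : (B : ℤ) * N ≤ B1 * N := by exact_mod_cast hBN
      have h9 : (H : ℤ) = 2 * (B1 * N) := by rw [hH]; push_cast; ring
      by_cases h6 : 1 ≤ (a : ℤ) + s m
      · rw [if_pos h6, if_pos ⟨h6, by linarith [h4.2]⟩]
      · rw [if_neg h6, if_neg (fun h => h6 h.1)]
    rw [e0, sum_comm]
    push_cast
    apply sum_congr rfl
    intro m _
    have e1 : ∑ a ∈ Icc 1 A, G a * c m * exI h (a + s m) = c m * S m := by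
      rw [hS, mul_sum]
      apply sum_congr rfl
      intro a _
      ring
    rw [e1, hc]
    simp only
    by_cases h0 : ‖S m‖ = 0
    · rw [norm_eq_zero.1 h0]; simp
    · have h0' : ((‖S m‖ : ℝ) : ℂ) ≠ 0 := by exact_mod_cast h0
      rw [div_mul_eq_mul_div, mul_comm, Complex.mul_conj', pow_two]
      field_simp
  rw [heq, Complex.norm_real, Real.norm_of_nonneg (sum_nonneg fun _ _ => norm_nonneg _)] at key
  refine key.trans ?_
  have hAr : (A : ℝ) ≤ B1 * N := by exact_mod_cast hA.trans hBN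
  have hB1r : (1 : ℝ) ≤ B1 := by exact_mod_cast hB1pos
  have hA0 : (0 : ℝ) ≤ A := Nat.cast_nonneg _
  have t1 : C0 / (1 / L ^ (U + 1)) ^ (2 * p) * (H / L ^ U') * A * x / M ≤
      ((4 * p + 5) * (2 * B1 ^ 2) / L) * (N * x / L ^ U) := by
    have h4 : C0 / (1 / L ^ (U + 1)) ^ (2 * p) * (H / L ^ U') = (4 * p + 5) * B1 * H / L ^ (U + 1) := by
      rw [div_pow, one_pow, ← pow_mul, hU', hC0]
      have e : L ^ (C + 2 * p * (U + 1) + U + 1) = L ^ C * L ^ ((U + 1) * (2 * p)) * L ^ (U + 1) := by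
        rw [← pow_add, ← pow_add]; congr 1; ring
      rw [e]
      field_simp
    rw [h4]
    have hAM' : (A : ℝ) ≤ M := by exact_mod_cast hAM
    have hM0 : (0 : ℝ) < M := by exact_mod_cast hM1
    have h5 : (4 * (p : ℝ) + 5) * B1 * H / L ^ (U + 1) * A * x / M ≤ (4 * p + 5) * B1 * H / L ^ (U + 1) * x := by
      rw [div_le_iff₀ hM0]
      have h6 : 0 ≤ (4 * (p : ℝ) + 5) * B1 * H / L ^ (U + 1) * x := by positivity
      calc (4 * (p : ℝ) + 5) * B1 * H / L ^ (U + 1) * A * x = ((4 * (p : ℝ) + 5) * B1 * H / L ^ (U + 1) * x) * A := by ring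
        _ ≤ _ := mul_le_mul_of_nonneg_left hAM' h6
    refine h5.trans (le_of_eq ?_)
    rw [hHr, pow_succ]
    field_simp
  have t2 : 1 / L ^ (U + 1) * x * Real.sqrt (H * A) ≤ (2 * B1 / L) * (N * x / L ^ U) := by
    have h4 : Real.sqrt (H * A) ≤ 2 * (B1 * N) := by
      rw [Real.sqrt_le_left (by positivity), hHr]
      have h5 : 2 * ((B1 : ℝ) * N) * A ≤ 2 * (B1 * N) * (B1 * N) := mul_le_mul_of_nonneg_left hAr (by positivity)
      have h6 : 0 ≤ (B1 : ℝ) * N := by positivity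
      nlinarith
    calc 1 / L ^ (U + 1) * x * Real.sqrt (H * A) ≤ 1 / L ^ (U + 1) * x * (2 * (B1 * N)) :=
          mul_le_mul_of_nonneg_left h4 (by positivity)
      _ = _ := by rw [pow_succ]; field_simp
  have hKr : (K : ℝ) = (4 * p + 5) * (2 * B1 ^ 2) + 2 * B1 := by rw [hK, hB1]; push_cast; ring
  calc C0 / (1 / L ^ (U + 1)) ^ (2 * p) * (H / L ^ U') * A * x / M + 1 / L ^ (U + 1) * x * Real.sqrt (H * A) ≤
        ((4 * p + 5) * (2 * B1 ^ 2) / L) * (N * x / L ^ U) + (2 * B1 / L) * (N * x / L ^ U) := add_le_add t1 t2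
    _ = (K / L) * (N * x / L ^ U) := by rw [hKr]; ring
    _ ≤ 1 * (N * x / L ^ U) := by
        apply mul_le_mul_of_nonneg_right _ (by positivity)
        rw [div_le_one hL0]
        linarith
    _ = _ := one_mul _

/-- all but few shifts in a family of nearly minimal energy -/
theorem few_e (h : ℕ → ℂ) (hb : ∀ n, ‖h n‖ ≤ 1) (hsup : SupSmall h) (p B C U : ℕ) :
    ∃ N0 : ℕ, ∀ N : ℕ, N0 ≤ N → ∀ (x : ℕ) (s : ℕ → ℤ), (∀ m ∈ Icc 1 x, |s m| ≤ B * N) →
    (energy p x s : ℝ) * N ≤ Real.log N ^ C * (x : ℝ) ^ (2 * p) →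
    ∀ A : ℕ, A ≤ B * N → ∀ G : ℕ → ℂ, (∀ a, ‖G a‖ ≤ 1) →
    (((Icc 1 x).filter (fun m : ℕ => N / Real.log N ^ U < ‖∑ a ∈ Icc 1 A, G a * exI h (a + s m)‖)).card : ℝ) ≤
      x / Real.log N ^ U := by
  obtain ⟨N0, hN0⟩ := l1_e h hb hsup p B C (2 * U)
  refine ⟨max N0 3, fun N hN x s hs hE A hA G hG => ?_⟩
  have h3 : 3 ≤ N := le_trans (le_max_right _ _) hN
  have hNr : (3 : ℝ) ≤ N := by exact_mod_cast h3
  have hN00 : (0 : ℝ) < N := by linarith
  have hL : 0 < Real.log N := Real.log_pos (by linarith)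
  have key := hN0 N (le_trans (le_max_left _ _) hN) x s hs hE A hA G hG
  set S : ℕ → ℝ := fun m => ‖∑ a ∈ Icc 1 A, G a * exI h (a + s m)‖ with hS
  set T := (Icc 1 x).filter (fun m => N / Real.log N ^ U < S m) with hT
  have h4 : (T.card : ℝ) * (N / Real.log N ^ U) ≤ ∑ m ∈ T, S m := by
    rw [← nsmul_eq_mul, ← sum_const]
    apply sum_le_sum
    intro m hm
    rw [hT, mem_filter] at hm
    exact hm.2.le
  have h5 : ∑ m ∈ T, S m ≤ ∑ m ∈ Icc 1 x, S m := sum_le_sum_of_subset_of_nonneg (filter_subset _ _) (fun _ _ _ => norm_nonneg _)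
  have h6 := (h4.trans h5).trans key
  have h7 : 0 < (N : ℝ) / Real.log N ^ U := by positivity
  rw [← le_div_iff₀ h7] at h6
  refine h6.trans (le_of_eq ?_)
  rw [two_mul, pow_add]
  field_simp

/-- polynomial values have nearly minimal energy of some order -/
theorem energy_poly (f : ℤ[X]) (hd : 1 ≤ f.natDegree) (hl : 0 < f.leadingCoeff) :
    ∃ p : ℕ, ∃ C : ℝ, 0 < C ∧ ∀ x : ℕ, 1 ≤ x →
      (energy p x (fun m => f.eval (m : ℤ)) : ℝ) * (x : ℝ) ^ f.natDegree ≤ C * (x : ℝ) ^ (2 * p) := by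
  obtain ⟨p, _, C, hC, hmom⟩ := moment f hd hl 1 le_rfl
  refine ⟨p, C, hC, fun x hx => ?_⟩
  have hx0 : (0 : ℝ) < x := by exact_mod_cast hx
  have h1 := hmom 1 (Or.inl rfl) x (x ^ f.natDegree) hx (Nat.one_le_pow _ _ hx) (by rw [one_mul])
  have h2 := energy_le p x (fun m => f.eval (m : ℤ)) (x ^ f.natDegree) (Nat.one_le_pow _ _ hx)
  simp only [one_mul] at h1
  have h3 : ∀ u : ℕ → ℝ, ∑ t ∈ range (x ^ f.natDegree), (u t / x) ^ (2 * p) = (∑ t ∈ range (x ^ f.natDegree), u t ^ (2 * p)) / (x : ℝ) ^ (2 * p) := by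
    intro u
    rw [sum_div]
    exact sum_congr rfl fun t _ => div_pow _ _ _
  rw [h3, div_le_iff₀ (by positivity)] at h1
  have h4 := h2.trans h1
  push_cast at h4 ⊢
  linarith

end Pool.Agent.H373R2.T7
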